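import Pool.Agent.Lib.PolyTime.Lists

/-!
Further polynomial-time combinators: suffixes of a list, constant families, table lookup, and
registration of the closure properties for the automation.
-/

namespace Pool.Agent.MP71902e

open Pool.Agent.PolyTime

variable {α β γ δ : Type} [Enc α] [Enc β] [Enc γ] [Enc δ]

attribute [fun_prop] PTime

@[fun_prop] theorem p_id : PTime (fun a : α => a) := PTime.id
@[fun_prop] theorem p_const (b : β) : PTime (fun _ : α => b) := PTime.const b
@[fun_prop] theorem p_comp {f : β → γ} {g : α → β} (hf : PTime f) (hg : PTime g) :
    PTime (fun a => f (g a)) := hf.comp hg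
@[fun_prop] theorem p_fst {f : α → β × γ} (hf : PTime f) : PTime (fun a => (f a).1) :=
  PTime.fst.comp hf
@[fun_prop] theorem p_snd {f : α → β × γ} (hf : PTime f) : PTime (fun a => (f a).2) :=
  PTime.snd.comp hf
@[fun_prop] theorem p_pair {f : α → β} {g : α → γ} (hf : PTime f) (hg : PTime g) :
    PTime (fun a => (f a, g a)) := hf.pair hg
@[fun_prop] theorem p_cons {f : α → β} {g : α → List β} (hf : PTime f) (hg : PTime g) :
    PTime (fun a => f a :: g a) := hf.cons hg
@[fun_prop] theorem p_append {f g : α → List β} (hf : PTime f) (hg : PTime g) :
    PTime (fun a => f a ++ g a) := hf.append hg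
@[fun_prop] theorem p_some {f : α → β} (hf : PTime f) : PTime (fun a => some (f a)) :=
  PTime.some hf
@[fun_prop] theorem p_not {f : α → Bool} (hf : PTime f) : PTime (fun a => !(f a)) := hf.not
@[fun_prop] theorem p_and {f g : α → Bool} (hf : PTime f) (hg : PTime g) :
    PTime (fun a => f a && g a) := hf.and hg
@[fun_prop] theorem p_or {f g : α → Bool} (hf : PTime f) (hg : PTime g) :
    PTime (fun a => f a || g a) := hf.or hg
@[fun_prop] theorem p_enc {f : α → β} (hf : PTime f) : PTime (fun a => enc (f a)) :=
  PTime.toD.comp hf

theorem size_reverse (l : List β) : size (enc l.reverse) = size (enc l) := by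
  induction l with
  | nil => rfl
  | cons x l ih =>
    have := size_append l.reverse [x]
    rw [List.reverse_cons]
    rw [size_lcons x []] at this
    rw [size_lcons]
    simp only [enc_nil, size_nil] at this
    omega

omit [Enc β] in
theorem foldl_tails (l : List β) :
    l.foldl (fun (acc : List (List β)) x => (x :: acc.head?.getD []) :: acc) [[]] =
      l.reverse.tails := by
  induction l using List.reverseRecOn with
  | nil => simp
  | append_singleton l x ih =>
    rw [List.foldl_append, ih]
    simp only [List.foldl_cons, List.foldl_nil, List.reverse_append, List.reverse_cons,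
      List.reverse_nil, List.nil_append, List.cons_append, List.tails_cons]
    congr 2
    cases l.reverse <;> simp

/-- The list of all suffixes is computable in polynomial time. -/
theorem PTime.tails {f : α → List β} (hf : PTime f) : PTime (fun a => (f a).tails) := by
  obtain ⟨F, hF, hFm, hFs⟩ := hf.size_le
  have hstep : PTime (fun p : α × (List (List β) × β) =>
      (p.2.2 :: (p.2.1.head?.getD [])) :: p.2.1) := by
    have h1 : PTime (fun p : α × (List (List β) × β) => p.2.1.head?) :=
      PTime.head? (by fun_prop)
    have h2 : PTime (fun p : α × (List (List β) × β) => p.2.1.head?.getD []) :=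
      PTime.getD h1 (PTime.const [])
    fun_prop
  refine (PTime.foldl (f := fun a => (f a).reverse) (g := fun _ => [[]])
    (h := fun (_ : α) (acc : List (List β)) (x : β) => (x :: acc.head?.getD []) :: acc)
    (PTime.reverse hf) (PTime.const _) hstep
    (B := fun n => (F n + 1) * (F n + 1) + 1) ?_ ?_).of_eq fun a => ?_
  · exact ((hF.add (PBd.const 1)).mul (hF.add (PBd.const 1))).add (PBd.const 1)
  · intro a l₁ l₂ h
    rw [foldl_tails]
    have hsub : l₁.Sublist (f a).reverse := by rw [h]; exact List.sublist_append_left _ _
    have h1 : size (enc l₁.reverse) ≤ F (size (enc a)) := by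
      rw [size_reverse]
      refine (size_sublist hsub).trans ?_
      rw [size_reverse]
      exact hFs a
    refine (size_list_le _ (F (size (enc a))) ?_).trans ?_
    · intro x hx
      rw [List.mem_tails] at hx
      exact (size_sublist hx.sublist).trans h1
    · have h2 := length_le_size l₁.reverse
      have h3 : l₁.reverse.tails.length ≤ F (size (enc a)) + 1 := by
        rw [List.length_tails]
        omega
      have := Nat.mul_le_mul_right (F (size (enc a)) + 1) h3
      omega
  · rw [foldl_tails, List.reverse_reverse]

/-- Mapping over a constant list, with a separate program for each entry. -/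
theorem PTime.map_const {ι : Type*} (L : List ι) {G : ι → α → β} (h : ∀ i ∈ L, PTime (G i)) :
    PTime (fun a => L.map fun i => G i a) := by
  induction L with
  | nil => exact PTime.const []
  | cons i L ih =>
    exact PTime.cons (h i (by simp)) (ih fun j hj => h j (by simp [hj]))

/-- Looking up a constant table at a unary number. -/
theorem PTime.table (tb : List Bool) {f : α → List Unit} (hf : PTime f) :
    PTime (fun a => tb.getD (f a).length false) := by
  have key : ∀ tb : List Bool, PTime (fun l : List Unit => tb.getD l.length false) := by
    intro tb
    induction tb with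
    | nil => exact (PTime.const false).of_eq fun l => by simp
    | cons b tb ih =>
      refine (PTime.list_cases (f := fun l : List Unit => l) (g := fun _ => b)
        (h := fun p : List Unit × (Unit × List Unit) => tb.getD p.2.2.length false)
        PTime.id (PTime.const b) (ih.comp (by fun_prop))).of_eq fun l => ?_
      cases l <;> rfl
  exact (key tb).comp hf

end Pool.Agent.MP71902e
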