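import Pool.Agent.Lib.MP_71902e_lc.Defs

/-!
Alternation-freeness on the level of incidence rows, and the two steps raising `t`.
-/

namespace Pool.Agent.Lib.MP_71902e_lc

/-- Membership of vertex `i` in the hyperedge with incidence row `A`. -/
def mem (A : List Bool) (i : ℕ) : Prop := A.getD i false = true

/-- The members of the list belong alternately to `A \ B` and `B \ A`. -/
def altL (A B : List Bool) : List ℕ → Prop
  | [] => True
  | x :: xs => (mem A x ∧ ¬ mem B x) ∧ altL B A xs

/-- `A` and `B` form an alternating sequence of length `t`. -/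
def Alt (pos : ℕ → ℕ) (n t : ℕ) (A B : List Bool) : Prop :=
  ∃ xs : List ℕ, xs.length = t ∧ (∀ x ∈ xs, x < n) ∧ xs.Pairwise (fun a b => pos a < pos b) ∧
    altL A B xs

/-- The hypergraph with incidence rows `R` on `{0, …, n-1}` is alternation-free. -/
def Free (t n : ℕ) (R : List (List Bool)) : Prop :=
  ∃ pos : ℕ → ℕ, (∀ i < n, ∀ j < n, pos i = pos j → i = j) ∧
    ∀ A ∈ R, ∀ B ∈ R, ¬ Alt pos n t A B

theorem altL_append {A B : List Bool} {xs ys : List ℕ} : altL A B (xs ++ ys) ↔
    altL A B xs ∧ (if xs.length % 2 = 0 then altL A B ys else altL B A ys) := by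
  induction xs generalizing A B with
  | nil => simp [altL]
  | cons x xs ih =>
    rw [List.cons_append, altL, altL, ih, List.length_cons, and_assoc]
    by_cases h : xs.length % 2 = 0
    · rw [if_pos h, if_neg (by omega)]
      tauto
    · rw [if_neg h, if_pos (by omega)]
      tauto

theorem altL_congr {A B A' B' : List Bool} {xs : List ℕ}
    (hA : ∀ x ∈ xs, mem A x ↔ mem A' x) (hB : ∀ x ∈ xs, mem B x ↔ mem B' x) :
    altL A B xs ↔ altL A' B' xs := by
  induction xs generalizing A B A' B' with
  | nil => simp [altL]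
  | cons x xs ih =>
    rw [altL, altL, hA x List.mem_cons_self, hB x List.mem_cons_self,
      ih (fun y hy => hB y (List.mem_cons_of_mem _ hy))
        (fun y hy => hA y (List.mem_cons_of_mem _ hy))]

theorem Alt.mono {pos : ℕ → ℕ} {n t s : ℕ} {A B : List Bool} (h : Alt pos n t A B)
    (hs : s ≤ t) : Alt pos n s A B := by
  obtain ⟨xs, h1, h2, h3, h4⟩ := h
  refine ⟨xs.take s, ?_, fun x hx => h2 x (List.mem_of_mem_take hx), h3.sublist
    (List.take_sublist _ _), ?_⟩
  · rw [List.length_take]; omega
  · rw [← List.take_append_drop s xs, altL_append] at h4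
    exact h4.1

theorem mem_append_left {A z : List Bool} {n i : ℕ} (hA : A.length = n) (hi : i < n) :
    mem (A ++ z) i ↔ mem A i := by
  unfold mem
  rw [List.getD_append _ _ _ _ (by omega)]

theorem mem_append_right {A z : List Bool} {n i : ℕ} (hA : A.length = n) (hi : n ≤ i) :
    mem (A ++ z) i ↔ mem z (i - n) := by
  unfold mem
  rw [List.getD_append_right _ _ _ _ (by omega), hA]

/-! ### From `t` to `t + 2` -/

/-- The zero vector and the unit vectors of length `K`. -/
def units (K : ℕ) : List (List Bool) :=
  (List.range K).map (fun _ => false) ::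
    (List.range K).map fun i => (List.range K).map fun j => decide (j = i)

theorem mem_range_map {K : ℕ} {p : ℕ → Bool} {i : ℕ} :
    mem ((List.range K).map p) i ↔ i < K ∧ p i = true := by
  unfold mem
  rw [List.getD_eq_getElem?_getD, List.getElem?_map]
  by_cases h : i < K
  · rw [List.getElem?_range h]
    simp [h]
  · rw [List.getElem?_eq_none (by simpa using h)]
    simp [h]

theorem units_unique {K : ℕ} {z : List Bool} (hz : z ∈ units K) {i j : ℕ} (hi : mem z i)
    (hj : mem z j) : i = j := by
  unfold units at hz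
  rw [List.mem_cons, List.mem_map] at hz
  rcases hz with rfl | ⟨k, _, rfl⟩
  · rw [mem_range_map] at hi
    simp at hi
  · rw [mem_range_map] at hi hj
    simp only [decide_eq_true_eq] at hi hj
    rw [hi.2, hj.2]

/-- The rows of the hypergraph for `t + 2`. -/
def step2 (t : ℕ) (R : List (List Bool)) : List (List Bool) :=
  R.flatMap fun A => (units (t + 2)).map fun z => A ++ z

theorem mem_step2 {t : ℕ} {R : List (List Bool)} {A' : List Bool} :
    A' ∈ step2 t R ↔ ∃ A ∈ R, ∃ z ∈ units (t + 2), A' = A ++ z := by
  unfold step2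
  simp only [List.mem_flatMap, List.mem_map]
  constructor
  · rintro ⟨A, hA, z, hz, rfl⟩
    exact ⟨A, hA, z, hz, rfl⟩
  · rintro ⟨A, hA, z, hz, rfl⟩
    exact ⟨A, hA, z, hz, rfl⟩

/-- An order extending `pos` in which the new vertices come last. -/
def posLast (pos : ℕ → ℕ) (n i : ℕ) : ℕ :=
  if i < n then pos i else (Finset.range n).sup pos + 1 + i

theorem posLast_lt {pos : ℕ → ℕ} {n i j : ℕ} (hi : i < n) (hj : n ≤ j) :
    posLast pos n i < posLast pos n j := by
  unfold posLast
  rw [if_pos hi, if_neg (by omega)]
  have : pos i ≤ (Finset.range n).sup pos := Finset.le_sup (Finset.mem_range.2 hi)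
  omega

theorem posLast_inj {pos : ℕ → ℕ} {n : ℕ} (h : ∀ i < n, ∀ j < n, pos i = pos j → i = j)
    {i j : ℕ} (he : posLast pos n i = posLast pos n j) : i = j := by
  by_cases hi : i < n
  · by_cases hj : j < n
    · unfold posLast at he
      rw [if_pos hi, if_pos hj] at he
      exact h i hi j hj he
    · have := posLast_lt (pos := pos) hi (Nat.le_of_not_lt hj)
      omega
  · by_cases hj : j < n
    · have := posLast_lt (pos := pos) hj (Nat.le_of_not_lt hi)
      omega
    · unfold posLast at he
      rw [if_neg hi, if_neg hj] at he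
      omega

/-- Splitting a sorted list at a threshold. -/
theorem split_sorted {f : ℕ → ℕ} {xs : List ℕ} (h : xs.Pairwise fun a b => f a < f b) (c : ℕ) :
    xs = (xs.takeWhile fun x => f x < c) ++ (xs.dropWhile fun x => f x < c) ∧
    (∀ x ∈ xs.takeWhile (fun x => f x < c), f x < c) ∧
    (∀ x ∈ xs.dropWhile (fun x => f x < c), c ≤ f x) := by
  refine ⟨(List.takeWhile_append_dropWhile).symm, ?_, ?_⟩
  · intro x hx
    simpa using List.mem_takeWhile_imp hx
  · induction xs with
    | nil => simp
    | cons y ys ih =>
      rw [List.pairwise_cons] at h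
      by_cases hy : f y < c
      · rw [List.dropWhile_cons_of_pos (by simpa using hy)]
        exact ih h.2
      · rw [List.dropWhile_cons_of_neg (by simpa using hy)]
        intro x hx
        rw [List.mem_cons] at hx
        rcases hx with rfl | hx
        · omega
        · have := h.1 x hx
          omega

theorem step2_sound {t n : ℕ} {R : List (List Bool)} (hR : ∀ A ∈ R, A.length = n)
    (h : Free (t + 2) (n + (t + 2)) (step2 t R)) : Free t n R := by
  obtain ⟨pos, hinj, hfree⟩ := h
  refine ⟨pos, fun i hi j hj => hinj i (by omega) j (by omega), fun A hA B hB halt => ?_⟩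
  obtain ⟨xs, h1, h2, h3, h4⟩ := halt
  -- pigeonhole for the new vertices
  have hg : ∀ z : Fin (t + 2),
      (xs.takeWhile fun x => pos x < pos (n + z)).length < t + 1 := by
    intro z
    have := (List.takeWhile_sublist (l := xs) (fun x => decide (pos x < pos (n + z)))).length_le
    omega
  obtain ⟨z, z', hne, hzz'⟩ := Fintype.exists_ne_map_eq_of_card_lt
    (fun z : Fin (t + 2) => (⟨_, hg z⟩ : Fin (t + 1))) (by simp)
  simp only [Fin.mk.injEq] at hzz'
  wlog hlt : pos (n + z) < pos (n + z') generalizing z z'
  · refine this z' z hne.symm hzz'.symm ?_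
    have hne' : pos (n + z) ≠ pos (n + z') := by
      intro he
      have := hinj (n + z) (by omega) (n + z') (by omega) he
      exact hne (Fin.ext (by omega))
    omega
  obtain ⟨e1, e2, e3⟩ := split_sorted h3 (pos (n + z))
  obtain ⟨f1, f2, f3⟩ := split_sorted h3 (pos (n + z'))
  have htk : xs.takeWhile (fun x => decide (pos x < pos (n + z))) =
      xs.takeWhile (fun x => decide (pos x < pos (n + z'))) := by
    have := List.append_inj (e1.symm.trans f1) hzz'
    exact this.1
  have hdr : xs.dropWhile (fun x => decide (pos x < pos (n + z))) =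
      xs.dropWhile (fun x => decide (pos x < pos (n + z'))) := by
    have := List.append_inj (e1.symm.trans f1) hzz'
    exact this.2
  set xs₁ := xs.takeWhile (fun x => decide (pos x < pos (n + z)))
  set xs₂ := xs.dropWhile (fun x => decide (pos x < pos (n + z)))
  rw [← hdr] at f3
  have g3 : ∀ x ∈ xs₂, pos (n + z') < pos x := by
    intro x hx
    have h5 := f3 x hx
    have h6 : x ∈ xs := by rw [e1]; exact List.mem_append_right _ hx
    have h7 := h2 x h6
    have h8 : pos (n + z') ≠ pos x := by
      intro he
      have := hinj (n + z') (by omega) x (by omega) he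
      omega
    omega
  have hmem1 : ∀ x ∈ xs₁, x < n := fun x hx => h2 x (by rw [e1]; exact List.mem_append_left _ hx)
  have hmem2 : ∀ x ∈ xs₂, x < n := fun x hx => h2 x (by rw [e1]; exact List.mem_append_right _ hx)
  rw [e1, List.pairwise_append] at h3
  rw [e1, altL_append] at h4
  have hlen : xs₁.length + xs₂.length = t := by
    rw [← h1, e1, List.length_append]
  have hpw : (xs₁ ++ (n + z) :: (n + z') :: xs₂).Pairwise (fun a b => pos a < pos b) := by
    rw [List.pairwise_append, List.pairwise_cons, List.pairwise_cons]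
    refine ⟨h3.1, ⟨?_, ?_, h3.2.1⟩, ?_⟩
    · intro x hx
      rw [List.mem_cons] at hx
      rcases hx with rfl | hx
      · exact hlt
      · exact hlt.trans (g3 x hx)
    · exact g3
    · intro x hx y hy
      have hx' := e2 x hx
      rw [List.mem_cons, List.mem_cons] at hy
      rcases hy with rfl | rfl | hy
      · exact hx'
      · exact hx'.trans hlt
      · exact h3.2.2 x hx y hy
  have hu : ∀ k : Fin (t + 2), ((List.range (t + 2)).map fun j => decide (j = k.val)) ∈
      units (t + 2) := fun k => by
    unfold units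
    exact List.mem_cons_of_mem _ (List.mem_map.2 ⟨k.val, List.mem_range.2 k.2, rfl⟩)
  have hin : ∀ C ∈ R, ∀ k l : Fin (t + 2),
      (mem (C ++ (List.range (t + 2)).map fun j => decide (j = k.val)) (n + l) ↔ l = k) := by
    intro C hC k l
    rw [mem_append_right (hR C hC) (by omega), mem_range_map]
    simp only [decide_eq_true_eq, Nat.add_sub_cancel_left]
    constructor
    · rintro ⟨_, h⟩
      exact Fin.ext h
    · rintro rfl
      exact ⟨l.2, rfl⟩
  have hold : ∀ C ∈ R, ∀ k : Fin (t + 2), ∀ x < n,
      (mem C x ↔ mem (C ++ (List.range (t + 2)).map fun j => decide (j = k.val)) x) :=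
    fun C hC k x hx => (mem_append_left (hR C hC) hx).symm
  have hall : ∀ x ∈ xs₁ ++ (n + z.val) :: (n + z'.val) :: xs₂, x < n + (t + 2) := by
    intro x hx
    rw [List.mem_append, List.mem_cons, List.mem_cons] at hx
    rcases hx with hx | rfl | rfl | hx
    · have := hmem1 x hx; omega
    · omega
    · omega
    · have := hmem2 x hx; omega
  by_cases hpar : xs₁.length % 2 = 0
  · rw [if_pos hpar] at h4
    refine hfree _ (mem_step2.2 ⟨A, hA, _, hu z, rfl⟩) _ (mem_step2.2 ⟨B, hB, _, hu z', rfl⟩)
      ⟨_, ?_, hall, hpw, ?_⟩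
    · rw [List.length_append, List.length_cons, List.length_cons]; omega
    · rw [altL_append, if_pos hpar]
      refine ⟨(altL_congr (fun x hx => hold A hA z x (hmem1 x hx))
        (fun x hx => hold B hB z' x (hmem1 x hx))).1 h4.1, ⟨?_, ?_⟩, ⟨?_, ?_⟩, ?_⟩
      · rw [hin A hA]
      · rw [hin B hB]; exact hne
      · rw [hin B hB]
      · rw [hin A hA]; exact hne.symm
      · exact (altL_congr (fun x hx => hold A hA z x (hmem2 x hx))
          (fun x hx => hold B hB z' x (hmem2 x hx))).1 h4.2
  · rw [if_neg hpar] at h4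
    refine hfree _ (mem_step2.2 ⟨A, hA, _, hu z', rfl⟩) _ (mem_step2.2 ⟨B, hB, _, hu z, rfl⟩)
      ⟨_, ?_, hall, hpw, ?_⟩
    · rw [List.length_append, List.length_cons, List.length_cons]; omega
    · rw [altL_append, if_neg hpar]
      refine ⟨(altL_congr (fun x hx => hold A hA z' x (hmem1 x hx))
        (fun x hx => hold B hB z x (hmem1 x hx))).1 h4.1, ⟨?_, ?_⟩, ⟨?_, ?_⟩, ?_⟩
      · rw [hin B hB]
      · rw [hin A hA]; exact hne
      · rw [hin A hA]
      · rw [hin B hB]; exact hne.symm
      · exact (altL_congr (fun x hx => hold B hB z x (hmem2 x hx))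
          (fun x hx => hold A hA z' x (hmem2 x hx))).1 h4.2

theorem step2_complete {t n : ℕ} {R : List (List Bool)} (hR : ∀ A ∈ R, A.length = n)
    (h : Free t n R) : Free (t + 2) (n + (t + 2)) (step2 t R) := by
  obtain ⟨pos, hinj, hfree⟩ := h
  refine ⟨posLast pos n, fun i _ j _ he => posLast_inj hinj he, fun A' hA' B' hB' halt => ?_⟩
  obtain ⟨A, hA, z₁, hz₁, rfl⟩ := mem_step2.1 hA'
  obtain ⟨B, hB, z₂, hz₂, rfl⟩ := mem_step2.1 hB'
  obtain ⟨xs, h1, h2, h3, h4⟩ := halt
  obtain ⟨e1, e2, e3⟩ := split_sorted h3 (posLast pos n n)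
  set ys := xs.takeWhile (fun x => decide (posLast pos n x < posLast pos n n))
  set zs := xs.dropWhile (fun x => decide (posLast pos n x < posLast pos n n))
  have hys : ∀ x ∈ ys, x < n := by
    intro x hx
    by_contra hcon
    have h5 := e2 x hx
    unfold posLast at h5
    rw [if_neg hcon, if_neg (by omega)] at h5
    omega
  have hzs : ∀ x ∈ zs, n ≤ x := by
    intro x hx
    by_contra hcon
    have h5 := e3 x hx
    have h6 := posLast_lt (pos := pos) (i := x) (j := n) (by omega) (le_refl n)
    omega
  rw [e1, List.pairwise_append] at h3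
  rw [e1, altL_append] at h4
  have hlen : ys.length + zs.length = t + 2 := by
    rw [← h1, e1, List.length_append]
  have hyl : ys.length < t := by
    by_contra hcon
    have : Alt pos n ys.length A B := by
      refine ⟨ys, rfl, hys, ?_, ?_⟩
      · refine h3.1.imp_of_mem fun {a b} ha hb hab => ?_
        unfold posLast at hab
        rwa [if_pos (hys a ha), if_pos (hys b hb)] at hab
      · exact (altL_congr (fun x hx => mem_append_left (hR A hA) (hys x hx))
          (fun x hx => mem_append_left (hR B hB) (hys x hx))).1 h4.1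
    exact hfree A hA B hB (this.mono (by omega))
  have key : ∀ C D : List Bool, (∀ i j, n ≤ i → n ≤ j → mem C i → mem C j → i = j) →
      altL C D zs → False := by
    intro C D hC hal
    match zs, hzs, h3.2.1, hal, (by omega : 3 ≤ zs.length) with
    | [], _, _, _, hl => simp at hl
    | [_], _, _, _, hl => simp at hl
    | [_, _], _, _, _, hl => simp at hl
    | a :: b :: c :: rest, hz, hp, hal, _ =>
      have e := hC a c (hz a (by simp)) (hz c (by simp)) hal.1.1 hal.2.2.1.1
      rw [List.pairwise_cons] at hp
      have := hp.1 c (by simp)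
      rw [e] at this
      exact lt_irrefl _ this
  have hun : ∀ C ∈ R, ∀ z ∈ units (t + 2), ∀ i j, n ≤ i → n ≤ j → mem (C ++ z) i →
      mem (C ++ z) j → i = j := by
    intro C hC z hz i j hi hj m1 m2
    rw [mem_append_right (hR C hC) hi] at m1
    rw [mem_append_right (hR C hC) hj] at m2
    have := units_unique hz m1 m2
    omega
  obtain ⟨_, h5⟩ := h4
  split at h5
  · exact key _ _ (hun A hA z₁ hz₁) h5
  · exact key _ _ (hun B hB z₂ hz₂) h5

theorem length_step2 {t n : ℕ} {R : List (List Bool)} (hR : ∀ A ∈ R, A.length = n) :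
    ∀ A ∈ step2 t R, A.length = n + (t + 2) := by
  intro A' hA'
  obtain ⟨A, hA, z, hz, rfl⟩ := mem_step2.1 hA'
  rw [List.length_append, hR A hA]
  unfold units at hz
  rw [List.mem_cons, List.mem_map] at hz
  rcases hz with rfl | ⟨k, _, rfl⟩ <;> simp

end Pool.Agent.Lib.MP_71902e_lc
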