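import Pool.Agent.Lib.MP_71902e_lc.Cross
import Pool.Agent.Lib.MP_5b98da_lc.Reduce

/-!
The reduction from monotone NAE-3SAT for `t = 4`.
-/

namespace Pool.Agent.Lib.MP_71902e_lc

open Pool.Agent.CookLevin Pool.Agent.Lib.MP_5b98da_lc

section
variable {α : Type}

/-- Points. -/
abbrev Gd (α : Type) : Type := ℕ × (ℕ × List α)

/-- The two reference points. -/
def gr : Gd α := (0, (0, []))
/-- The two reference points. -/
def gM : Gd α := (1, (0, []))
/-- The point of a variable. -/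
def gv (x : α) : Gd α := (2, (0, [x]))
/-- Two points of a clause. -/
def gb (j : ℕ) : Gd α := (3, (j, []))
/-- Two points of a clause. -/
def gu (j : ℕ) : Gd α := (4, (j, []))

/-- The constraints of a clause: the two chords do not cross. -/
def cons (T : α × (α × α)) (j : ℕ) : List ((Gd α × Gd α) × (Gd α × Gd α)) :=
  [((gv T.2.1, gb j), (gr, gM)), ((gv T.1, gr), (gb j, gu j)), ((gv T.1, gu j), (gb j, gr)),
    ((gu j, gr), (gv T.2.2, gM)), ((gu j, gM), (gv T.2.2, gr))]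

/-- All constraints. -/
def consL (I : List (α × (α × α))) : List ((Gd α × Gd α) × (Gd α × Gd α)) :=
  I.zipIdx.flatMap fun g => cons g.1 g.2

variable [DecidableEq α]

/-- All points. -/
def ptsL (I : List (α × (α × α))) : List (Gd α) :=
  gr :: gM :: ((vars I).map gv ++ (List.range I.length).flatMap fun j => [gb j, gu j])

/-- The vertices: a copy of every point for every constraint. -/
def vtsL (I : List (α × (α × α))) : List (Gd α × ℕ) :=
  (List.range (consL I).length).flatMap fun i => (ptsL I).map fun g => (g, i)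

/-- All copies of a point. -/
def hb (g : Gd α) (w : Gd α × ℕ) : Bool := decide (w.1 = g)

/-- One side of the `i`-th constraint. -/
def hs (i : ℕ) (P : Gd α × Gd α) (w : Gd α × ℕ) : Bool :=
  decide (w.2 ∈ List.range i) || (decide (w.2 = i) && (decide (w.1 = P.1) || decide (w.1 = P.2)))

/-- The hyperedges. -/
def preds (I : List (α × (α × α))) : List (Gd α × ℕ → Bool) :=
  ((ptsL I).flatMap fun g => [hb g, fun w => !hb g w]) ++
    (consL I).zipIdx.flatMap fun c => [hs c.2 c.1.1, hs c.2 c.1.2]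

/-- The incidence rows. -/
def rows (I : List (α × (α × α))) : List (List Bool) := (preds I).map fun p => (vtsL I).map p

theorem mem_ptsL {I : List (α × (α × α))} {g : Gd α} : g ∈ ptsL I ↔
    g = gr ∨ g = gM ∨ (∃ x ∈ vars I, g = gv x) ∨ (∃ j < I.length, g = gb j ∨ g = gu j) := by
  unfold ptsL
  simp only [List.mem_cons, List.mem_append, List.mem_map, List.mem_flatMap, List.mem_range,
    List.not_mem_nil, or_false]
  constructor
  · rintro (h | h | ⟨x, hx, rfl⟩ | h)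
    · exact Or.inl h
    · exact Or.inr (Or.inl h)
    · exact Or.inr (Or.inr (Or.inl ⟨x, hx, rfl⟩))
    · exact Or.inr (Or.inr (Or.inr h))
  · rintro (h | h | ⟨x, hx, rfl⟩ | h)
    · exact Or.inl h
    · exact Or.inr (Or.inl h)
    · exact Or.inr (Or.inr (Or.inl ⟨x, hx, rfl⟩))
    · exact Or.inr (Or.inr (Or.inr h))

theorem ptsL_nodup (I : List (α × (α × α))) : (ptsL I).Nodup := by
  unfold ptsL
  rw [List.nodup_cons, List.nodup_cons, List.nodup_append']
  refine ⟨?_, ?_, ?_, ?_, ?_⟩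
  · simp only [List.mem_cons, List.mem_append, List.mem_map, List.mem_flatMap,
      List.not_mem_nil, or_false, gr, gM, gv, gb, gu, Prod.mk.injEq]
    rintro (h | ⟨x, _, h⟩ | ⟨j, _, h | h⟩) <;> omega
  · simp only [List.mem_append, List.mem_map, List.mem_flatMap, List.mem_cons,
      List.not_mem_nil, or_false, gM, gv, gb, gu, Prod.mk.injEq]
    rintro (⟨x, _, h⟩ | ⟨j, _, h | h⟩) <;> omega
  · refine (dd_nodup _).map fun x y h => ?_
    simpa [gv] using h
  · rw [List.nodup_flatMap]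
    refine ⟨fun j _ => ?_, ?_⟩
    · simp [gb, gu]
    · refine List.Nodup.pairwise_of_forall_ne (List.nodup_range) ?_
      intro i _ j _ hij
      simp only [Function.onFun, List.disjoint_left, List.mem_cons, List.not_mem_nil, or_false]
      rintro g (rfl | rfl) (h | h) <;> simp [gb, gu] at h <;> exact hij h
  · rw [List.disjoint_left]
    intro g h h'
    simp only [List.mem_map, List.mem_flatMap, List.mem_cons, List.not_mem_nil, or_false] at h h'
    obtain ⟨x, _, rfl⟩ := h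
    obtain ⟨j, _, h | h⟩ := h' <;> simp [gv, gb, gu] at h

theorem mem_vtsL {I : List (α × (α × α))} {w : Gd α × ℕ} :
    w ∈ vtsL I ↔ w.1 ∈ ptsL I ∧ w.2 < (consL I).length := by
  unfold vtsL
  simp only [List.mem_flatMap, List.mem_map, List.mem_range]
  constructor
  · rintro ⟨i, hi, g, hg, rfl⟩
    exact ⟨hg, hi⟩
  · rintro ⟨h1, h2⟩
    exact ⟨w.2, h2, w.1, h1, rfl⟩

theorem vtsL_nodup (I : List (α × (α × α))) : (vtsL I).Nodup := by
  unfold vtsL
  rw [List.nodup_flatMap]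
  refine ⟨fun i _ => (ptsL_nodup I).map fun g h e => (Prod.mk.inj e).1, ?_⟩
  refine List.Nodup.pairwise_of_forall_ne (List.nodup_range) ?_
  intro i _ j _ hij
  simp only [Function.onFun, List.disjoint_left, List.mem_map]
  rintro w ⟨g, _, rfl⟩ ⟨h, _, e⟩
  exact hij (Prod.mk.inj e).2.symm

omit [DecidableEq α] in
theorem mem_consL {I : List (α × (α × α))} {T : α × (α × α)} {j : ℕ} (h : (T, j) ∈ I.zipIdx)
    {c : (Gd α × Gd α) × (Gd α × Gd α)} (hc : c ∈ cons T j) : c ∈ consL I :=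
  List.mem_flatMap.2 ⟨(T, j), h, hc⟩

/-- The constraints in terms of the copies with number 0. -/
theorem constraint_zero {I : List (α × (α × α))} {P : Gd α × ℕ → ℕ}
    (hinj : ∀ v ∈ vtsL I, ∀ w ∈ vtsL I, P v = P w → v = w)
    (hnc : NonCrossing (vtsL I) (preds I) P) {a b c d : Gd α}
    (hc : ((a, b), (c, d)) ∈ consL I) (ha : a ∈ ptsL I) (hb' : b ∈ ptsL I) (hc' : c ∈ ptsL I)
    (hd : d ∈ ptsL I) (n1 : a ≠ c) (n2 : a ≠ d) (n3 : b ≠ c) (n4 : b ≠ d) :
    ¬ Cross (P (a, 0)) (P (b, 0)) (P (c, 0)) (P (d, 0)) := by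
  obtain ⟨i, hi⟩ := List.mem_iff_getElem?.1 hc
  have him : i < (consL I).length := by
    by_contra hcon
    rw [List.getElem?_eq_none (by omega)] at hi
    exact absurd hi (by simp)
  have hzi : (((a, b), (c, d)), i) ∈ (consL I).zipIdx := List.mem_zipIdx_iff_getElem?.2 hi
  have hV : ∀ g ∈ ptsL I, ∀ k < (consL I).length, (g, k) ∈ vtsL I := fun g hg k hk =>
    mem_vtsL.2 ⟨hg, hk⟩
  have hs1 : ∀ (x y z : Gd α), (hs i (x, y) (z, i) = true ↔ (z = x ∨ z = y)) := by
    intro x y z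
    simp [hs]
  have hs0 : ∀ (x y z : Gd α), z ≠ x → z ≠ y → hs i (x, y) (z, i) = false := by
    intro x y z h1 h2
    simp [hs, h1, h2]
  have hp1 : hs i (a, b) ∈ preds I :=
    List.mem_append_right _ (List.mem_flatMap.2 ⟨_, hzi, by simp⟩)
  have hp2 : hs i (c, d) ∈ preds I :=
    List.mem_append_right _ (List.mem_flatMap.2 ⟨_, hzi, by simp⟩)
  have main : ¬ Cross (P (a, i)) (P (b, i)) (P (c, i)) (P (d, i)) :=
    hnc _ hp1 _ hp2 _ (hV a ha i him) _ (hV b hb' i him) _ (hV c hc' i him) _ (hV d hd i him)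
      ((hs1 a b a).2 (Or.inl rfl)) (hs0 c d a n1 n2) ((hs1 a b b).2 (Or.inr rfl))
      (hs0 c d b n3 n4) ((hs1 c d c).2 (Or.inl rfl)) (hs0 a b c n1.symm n3.symm)
      ((hs1 c d d).2 (Or.inr rfl)) (hs0 a b d n2.symm n4.symm)
  -- contiguity
  have cont : ∀ g ∈ ptsL I, ∀ k l, k < (consL I).length → l < (consL I).length →
      ∀ x ∈ ptsL I, ∀ y ∈ ptsL I, x ≠ g → y ≠ g → ∀ k' l', k' < (consL I).length →
      l' < (consL I).length → ¬ Cross (P (g, k)) (P (g, l)) (P (x, k')) (P (y, l')) := by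
    intro g hg k l hk hl x hx y hy hxg hyg k' l' hk' hl'
    have q1 : hb g ∈ preds I :=
      List.mem_append_left _ (List.mem_flatMap.2 ⟨g, hg, by simp⟩)
    have q2 : (fun w => !hb g w) ∈ preds I :=
      List.mem_append_left _ (List.mem_flatMap.2 ⟨g, hg, by simp⟩)
    refine hnc _ q1 _ q2 _ (hV g hg k hk) _ (hV g hg l hl) _ (hV x hx k' hk') _ (hV y hy l' hl')
      ?_ ?_ ?_ ?_ ?_ ?_ ?_ ?_ <;> simp [hb, hxg, hyg]
  have h0 : 0 < (consL I).length := by omega
  have hne : ∀ x ∈ ptsL I, ∀ y ∈ ptsL I, x ≠ y → ∀ k l, k < (consL I).length →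
      l < (consL I).length → P (x, k) ≠ P (y, l) := by
    intro x hx y hy hxy k l hk hl he
    exact hxy (Prod.mk.inj (hinj _ (hV x hx k hk) _ (hV y hy l hl) he)).1
  -- move the copies one after the other
  have s1 : ¬ Cross (P (a, 0)) (P (b, i)) (P (c, i)) (P (d, i)) :=
    cross_replace main (cont a ha i 0 him h0 c hc' d hd n1.symm n2.symm i i him him)
  have s2 : ¬ Cross (P (a, 0)) (P (b, 0)) (P (c, i)) (P (d, i)) := by
    rw [← cross_swap] at s1 ⊢
    exact cross_replace s1 (cont b hb' i 0 him h0 c hc' d hd n3.symm n4.symm i i him him)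
  have s3 : ¬ Cross (P (c, i)) (P (d, i)) (P (a, 0)) (P (b, 0)) := fun h =>
    s2 (cross_symm (hne a ha c hc' n1 0 i h0 him) (hne a ha d hd n2 0 i h0 him)
      (hne b hb' c hc' n3 0 i h0 him) (hne b hb' d hd n4 0 i h0 him) h)
  have s4 : ¬ Cross (P (c, 0)) (P (d, i)) (P (a, 0)) (P (b, 0)) :=
    cross_replace s3 (cont c hc' i 0 him h0 a ha b hb' n1 n3 0 0 h0 h0)
  have s5 : ¬ Cross (P (c, 0)) (P (d, 0)) (P (a, 0)) (P (b, 0)) := by
    rw [← cross_swap] at s4 ⊢
    exact cross_replace s4 (cont d hd i 0 him h0 a ha b hb' n2 n4 0 0 h0 h0)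
  exact fun h => s5 (cross_symm (hne c hc' a ha n1.symm 0 0 h0 h0)
    (hne c hc' b hb' n3.symm 0 0 h0 h0) (hne d hd a ha n2.symm 0 0 h0 h0)
    (hne d hd b hb' n4.symm 0 0 h0 h0) h)

/-- Soundness of the reduction. -/
theorem base_sound {I : List (α × (α × α))} {P : Gd α × ℕ → ℕ}
    (hinj : ∀ v ∈ vtsL I, ∀ w ∈ vtsL I, P v = P w → v = w)
    (hnc : NonCrossing (vtsL I) (preds I) P) : NAESat I := by
  refine ⟨fun x => (P (gr, 0) < P (gv x, 0) ↔ P (gM, 0) < P (gv x, 0)), fun T hT hmono => ?_⟩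
  obtain ⟨j, hj⟩ := List.mem_iff_getElem?.1 hT
  have hz : (T, j) ∈ I.zipIdx := List.mem_zipIdx_iff_getElem?.2 hj
  have hjl : j < I.length := by
    by_contra hcon
    rw [List.getElem?_eq_none (by omega)] at hj
    exact absurd hj (by simp)
  obtain ⟨v1, v2, v3⟩ := mem_vars hT
  have mr : (gr : Gd α) ∈ ptsL I := mem_ptsL.2 (Or.inl rfl)
  have mM : (gM : Gd α) ∈ ptsL I := mem_ptsL.2 (Or.inr (Or.inl rfl))
  have mx : gv T.1 ∈ ptsL I := mem_ptsL.2 (Or.inr (Or.inr (Or.inl ⟨_, v1, rfl⟩)))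
  have my : gv T.2.1 ∈ ptsL I := mem_ptsL.2 (Or.inr (Or.inr (Or.inl ⟨_, v2, rfl⟩)))
  have mz : gv T.2.2 ∈ ptsL I := mem_ptsL.2 (Or.inr (Or.inr (Or.inl ⟨_, v3, rfl⟩)))
  have mb : (gb j : Gd α) ∈ ptsL I :=
    mem_ptsL.2 (Or.inr (Or.inr (Or.inr ⟨j, hjl, Or.inl rfl⟩)))
  have mu : (gu j : Gd α) ∈ ptsL I :=
    mem_ptsL.2 (Or.inr (Or.inr (Or.inr ⟨j, hjl, Or.inr rfl⟩)))
  have h0 : 0 < (consL I).length :=
    List.length_pos_of_mem (mem_consL hz (c := ((gv T.2.1, gb j), (gr, gM))) (by simp [cons]))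
  have hne : ∀ x ∈ ptsL I, ∀ y ∈ ptsL I, x ≠ y → P (x, 0) ≠ P (y, 0) := by
    intro x hx y hy hxy he
    exact hxy (Prod.mk.inj (hinj _ (mem_vtsL.2 ⟨hx, h0⟩) _ (mem_vtsL.2 ⟨hy, h0⟩) he)).1
  have dd1 : (gr : Gd α) ≠ gM := by simp [gr, gM]
  have dd2 : (gr : Gd α) ≠ gb j := by simp [gr, gb]
  have dd3 : (gr : Gd α) ≠ gu j := by simp [gr, gu]
  have dd4 : (gM : Gd α) ≠ gb j := by simp [gM, gb]
  have dd5 : (gM : Gd α) ≠ gu j := by simp [gM, gu]
  have dd6 : (gb j : Gd α) ≠ gu j := by simp [gb, gu]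
  have vr : ∀ x : α, gv x ≠ gr := by intro x; simp [gv, gr]
  have vM : ∀ x : α, gv x ≠ gM := by intro x; simp [gv, gM]
  have vb : ∀ x : α, gv x ≠ gb j := by intro x; simp [gv, gb]
  have vu : ∀ x : α, gv x ≠ gu j := by intro x; simp [gv, gu]
  have c1 := constraint_zero hinj hnc (mem_consL hz (by simp [cons] :
    ((gv T.2.1, gb j), (gr, gM)) ∈ cons T j)) my mb mr mM (vr _) (vM _) dd2.symm dd4.symm
  have c2 := constraint_zero hinj hnc (mem_consL hz (by simp [cons] :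
    ((gv T.1, gr), (gb j, gu j)) ∈ cons T j)) mx mr mb mu (vb _) (vu _) dd2 dd3
  have c3 := constraint_zero hinj hnc (mem_consL hz (by simp [cons] :
    ((gv T.1, gu j), (gb j, gr)) ∈ cons T j)) mx mu mb mr (vb _) (vr _) dd6.symm dd3.symm
  have c4 := constraint_zero hinj hnc (mem_consL hz (by simp [cons] :
    ((gu j, gr), (gv T.2.2, gM)) ∈ cons T j)) mu mr mz mM (vu _).symm dd5.symm (vr _).symm dd1
  have c5 := constraint_zero hinj hnc (mem_consL hz (by simp [cons] :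
    ((gu j, gM), (gv T.2.2, gr)) ∈ cons T j)) mu mM mz mr (vu _).symm dd3.symm (vM _).symm dd1.symm
  exact not_nae c1 c2 c3 c4 c5 (hne _ mr _ mM dd1) (hne _ mr _ mb dd2) (hne _ mr _ mu dd3)
    (hne _ mM _ mb dd4) (hne _ mM _ mu dd5) (hne _ mb _ mu dd6)
    (hne _ mx _ mr (vr _)) (hne _ mx _ mM (vM _)) (hne _ mx _ mb (vb _)) (hne _ mx _ mu (vu _))
    (hne _ my _ mr (vr _)) (hne _ my _ mM (vM _))
    (hne _ mz _ mr (vr _)) (hne _ mz _ mM (vM _)) (hne _ mz _ mu (vu _))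
    hmono.1 hmono.2

end

end Pool.Agent.Lib.MP_71902e_lc
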