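import Pool.Agent.Lib.MP_71902e_lc.Base

/-!
Completeness of the reduction for `t = 4`.
-/

namespace Pool.Agent.Lib.MP_71902e_lc

open Pool.Agent.CookLevin Pool.Agent.Lib.MP_5b98da_lc

section
variable {α : Type} [DecidableEq α]

/-- Zone width. -/
def wd (I : List (α × (α × α))) : ℕ := 3 * I.length + (vars I).length + 5

open Classical in
/-- The position of a point. -/
noncomputable def qpos (I : List (α × (α × α))) (f : α → Prop) (g : Gd α) : ℕ :=
  if g.1 = 0 then 0
  else if g.1 = 1 then 3 * wd I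
  else if g.1 = 2 then
    (match g.2.2 with
      | [] => 0
      | x :: _ => (if f x then 1 else 5) * wd I + (vars I).idxOf x)
  else if g.1 = 3 then
    (match I[g.2.1]? with
      | none => 0
      | some T => (if f T.2.1 then 2 else 4) * wd I + (3 * g.2.1 + 1))
  else
    (match I[g.2.1]? with
      | none => 0
      | some T => (if f T.2.2 then 4 else 2) * wd I + (if f T.1 then 3 * g.2.1 else 3 * g.2.1 + 2))

variable {I : List (α × (α × α))} {f : α → Prop}

theorem qpos_gr : qpos I f gr = 0 := by simp [qpos, gr]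

theorem qpos_gM : qpos I f gM = 3 * wd I := by simp [qpos, gM]

open Classical in
theorem qpos_gv (x : α) : qpos I f (gv x) = (if f x then 1 else 5) * wd I + (vars I).idxOf x := by
  simp [qpos, gv]

open Classical in
theorem qpos_gb {T : α × (α × α)} {j : ℕ} (h : I[j]? = some T) :
    qpos I f (gb j) = (if f T.2.1 then 2 else 4) * wd I + (3 * j + 1) := by
  unfold qpos gb
  simp only [h]
  simp

open Classical in
theorem qpos_gu {T : α × (α × α)} {j : ℕ} (h : I[j]? = some T) :
    qpos I f (gu j) = (if f T.2.2 then 4 else 2) * wd I +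
      (if f T.1 then 3 * j else 3 * j + 2) := by
  unfold qpos gu
  simp only [h]
  simp

theorem qpos_inj {g h : Gd α} (hg : g ∈ ptsL I) (hh : h ∈ ptsL I)
    (e : qpos I f g = qpos I f h) : g = h := by
  classical
  have hW : 3 * I.length + (vars I).length + 5 = wd I := rfl
  have hv : ∀ x ∈ vars I, (vars I).idxOf x < (vars I).length := fun x hx =>
    List.idxOf_lt_length_iff.2 hx
  have ex : ∀ j < I.length, ∃ T, I[j]? = some T := fun j hj => ⟨_, List.getElem?_eq_getElem hj⟩
  rw [mem_ptsL] at hg hh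
  rcases hg with rfl | rfl | ⟨x, hx, rfl⟩ | ⟨j, hj, rfl | rfl⟩ <;>
    rcases hh with rfl | rfl | ⟨y, hy, rfl⟩ | ⟨k, hk, rfl | rfl⟩
  · rfl
  · rw [qpos_gr, qpos_gM] at e; omega
  · rw [qpos_gr, qpos_gv] at e
    split at e <;> omega
  · obtain ⟨T, hT⟩ := ex k hk
    rw [qpos_gr, qpos_gb hT] at e
    split at e <;> omega
  · obtain ⟨T, hT⟩ := ex k hk
    rw [qpos_gr, qpos_gu hT] at e
    split at e <;> split at e <;> omega
  · rw [qpos_gr, qpos_gM] at e; omega
  · rfl
  · have := hv y hy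
    rw [qpos_gM, qpos_gv] at e
    split at e <;> omega
  · obtain ⟨T, hT⟩ := ex k hk
    rw [qpos_gM, qpos_gb hT] at e
    split at e <;> omega
  · obtain ⟨T, hT⟩ := ex k hk
    rw [qpos_gM, qpos_gu hT] at e
    split at e <;> split at e <;> omega
  · rw [qpos_gr, qpos_gv] at e
    split at e <;> omega
  · have := hv x hx
    rw [qpos_gM, qpos_gv] at e
    split at e <;> omega
  · have h1 := hv x hx
    have h2 := hv y hy
    rw [qpos_gv, qpos_gv] at e
    have h3 : (vars I).idxOf x = (vars I).idxOf y := by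
      split at e <;> split at e <;> omega
    rw [(List.idxOf_inj hx).1 h3]
  · obtain ⟨T, hT⟩ := ex k hk
    have h1 := hv x hx
    rw [qpos_gv, qpos_gb hT] at e
    split at e <;> split at e <;> omega
  · obtain ⟨T, hT⟩ := ex k hk
    have h1 := hv x hx
    rw [qpos_gv, qpos_gu hT] at e
    split at e <;> split at e <;> split at e <;> omega
  · obtain ⟨T, hT⟩ := ex j hj
    rw [qpos_gr, qpos_gb hT] at e
    split at e <;> omega
  · obtain ⟨T, hT⟩ := ex j hj
    rw [qpos_gM, qpos_gb hT] at e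
    split at e <;> omega
  · obtain ⟨T, hT⟩ := ex j hj
    have h1 := hv y hy
    rw [qpos_gv, qpos_gb hT] at e
    split at e <;> split at e <;> omega
  · obtain ⟨T, hT⟩ := ex j hj
    obtain ⟨T', hT'⟩ := ex k hk
    rw [qpos_gb hT, qpos_gb hT'] at e
    have : j = k := by split at e <;> split at e <;> omega
    rw [this]
  · obtain ⟨T, hT⟩ := ex j hj
    obtain ⟨T', hT'⟩ := ex k hk
    rw [qpos_gb hT, qpos_gu hT'] at e
    split at e <;> split at e <;> split at e <;> omega
  · obtain ⟨T, hT⟩ := ex j hj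
    rw [qpos_gr, qpos_gu hT] at e
    split at e <;> split at e <;> omega
  · obtain ⟨T, hT⟩ := ex j hj
    rw [qpos_gM, qpos_gu hT] at e
    split at e <;> split at e <;> omega
  · obtain ⟨T, hT⟩ := ex j hj
    have h1 := hv y hy
    rw [qpos_gv, qpos_gu hT] at e
    split at e <;> split at e <;> split at e <;> omega
  · obtain ⟨T, hT⟩ := ex j hj
    obtain ⟨T', hT'⟩ := ex k hk
    rw [qpos_gu hT, qpos_gb hT'] at e
    split at e <;> split at e <;> split at e <;> omega
  · obtain ⟨T, hT⟩ := ex j hj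
    obtain ⟨T', hT'⟩ := ex k hk
    rw [qpos_gu hT, qpos_gu hT'] at e
    have : j = k := by split at e <;> split at e <;> split at e <;> split at e <;> omega
    rw [this]

theorem cons_ok (hf : ∀ T ∈ I, ¬ ((f T.1 ↔ f T.2.1) ∧ (f T.2.1 ↔ f T.2.2)))
    {c : (Gd α × Gd α) × (Gd α × Gd α)} (hc : c ∈ consL I) :
    ¬ Cross (qpos I f c.1.1) (qpos I f c.1.2) (qpos I f c.2.1) (qpos I f c.2.2) := by
  classical
  have hW : 3 * I.length + (vars I).length + 5 = wd I := rfl
  unfold consL at hc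
  rw [List.mem_flatMap] at hc
  obtain ⟨⟨T, j⟩, hz, hc⟩ := hc
  have hj : I[j]? = some T := List.mem_zipIdx_iff_getElem?.1 hz
  have hT : T ∈ I := List.mem_of_getElem? hj
  have hjl : j < I.length := by
    by_contra hcon
    rw [List.getElem?_eq_none (by omega)] at hj
    exact absurd hj (by simp)
  obtain ⟨v1, v2, v3⟩ := mem_vars hT
  have i1 : (vars I).idxOf T.1 < (vars I).length := List.idxOf_lt_length_iff.2 v1
  have i2 : (vars I).idxOf T.2.1 < (vars I).length := List.idxOf_lt_length_iff.2 v2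
  have i3 : (vars I).idxOf T.2.2 < (vars I).length := List.idxOf_lt_length_iff.2 v3
  have hn := hf T hT
  simp only [cons, List.mem_cons, List.not_mem_nil, or_false] at hc
  unfold Cross
  rcases hc with rfl | rfl | rfl | rfl | rfl <;>
    simp only [qpos_gr, qpos_gM, qpos_gv, qpos_gb hj, qpos_gu hj] <;>
    by_cases f1 : f T.1 <;> by_cases f2 : f T.2.1 <;> by_cases f3 : f T.2.2 <;>
    simp only [f1, f2, f3, if_true, if_false, iff_true, iff_false, not_true_eq_false,
      not_false_eq_true, and_true, and_false, and_self, iff_self] at hn ⊢ <;>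
    omega

/-- The position of a copy. -/
noncomputable def ppos (I : List (α × (α × α))) (f : α → Prop) (w : Gd α × ℕ) : ℕ :=
  qpos I f w.1 * (consL I).length + w.2

theorem ppos_lt {v w : Gd α × ℕ} (hv : v.2 < (consL I).length) (h : qpos I f v.1 < qpos I f w.1) :
    ppos I f v < ppos I f w := by
  unfold ppos
  have : (qpos I f v.1 + 1) * (consL I).length ≤ qpos I f w.1 * (consL I).length :=
    Nat.mul_le_mul_right _ h
  rw [Nat.add_mul, Nat.one_mul] at this
  omega

theorem ppos_inj {v w : Gd α × ℕ} (hv : v ∈ vtsL I) (hw : w ∈ vtsL I)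
    (e : ppos I f v = ppos I f w) : v = w := by
  rw [mem_vtsL] at hv hw
  rcases Nat.lt_trichotomy (qpos I f v.1) (qpos I f w.1) with h | h | h
  · have := ppos_lt hv.2 h
    omega
  · have h1 := qpos_inj hv.1 hw.1 h
    unfold ppos at e
    rw [h] at e
    exact Prod.ext h1 (by omega)
  · have := ppos_lt hw.2 h
    omega

/-- Comparison with all copies of a point. -/
theorem ppos_side {v w v' w' : Gd α × ℕ} (hv : v ∈ vtsL I) (hw : w ∈ vtsL I) (hv' : v' ∈ vtsL I)
    (hw' : w' ∈ vtsL I) (h1 : v.1 = v'.1) (h2 : w.1 = w'.1) (hne : v.1 ≠ w.1) :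
    ppos I f v < ppos I f w ↔ ppos I f v' < ppos I f w' := by
  rw [mem_vtsL] at hv hw hv' hw'
  have hq : qpos I f v.1 ≠ qpos I f w.1 := fun h => hne (qpos_inj hv.1 hw.1 h)
  have hq' : qpos I f v'.1 = qpos I f v.1 := by rw [h1]
  have hq'' : qpos I f w'.1 = qpos I f w.1 := by rw [h2]
  rcases Nat.lt_or_gt_of_ne hq with h | h
  · have a1 := ppos_lt hv.2 h
    have a2 := ppos_lt (f := f) (v := v') (w := w') hv'.2 (by omega)
    exact ⟨fun _ => a2, fun _ => a1⟩
  · have a1 := ppos_lt (v := w) (w := v) hw.2 h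
    have a2 := ppos_lt (f := f) (v := w') (w := v') hw'.2 (by omega)
    constructor <;> intro h' <;> omega

theorem not_cross_block {v₁ v₂ w₁ w₂ : Gd α × ℕ} (hv₁ : v₁ ∈ vtsL I) (hv₂ : v₂ ∈ vtsL I)
    (hw₁ : w₁ ∈ vtsL I) (hw₂ : w₂ ∈ vtsL I) {g : Gd α} (h1 : v₁.1 = g) (h2 : v₂.1 = g)
    (h3 : w₁.1 ≠ g) (h4 : w₂.1 ≠ g) :
    ¬ Cross (ppos I f v₁) (ppos I f v₂) (ppos I f w₁) (ppos I f w₂) := by
  unfold Cross
  rw [ppos_side hv₁ hw₁ hv₂ hw₁ (h1.trans h2.symm) rfl (fun h => h3 (h.symm.trans h1)),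
    ppos_side hv₁ hw₂ hv₂ hw₂ (h1.trans h2.symm) rfl (fun h => h4 (h.symm.trans h1))]
  simp

theorem cross_symm_ppos {v₁ v₂ w₁ w₂ : Gd α × ℕ} (hv₁ : v₁ ∈ vtsL I) (hv₂ : v₂ ∈ vtsL I)
    (hw₁ : w₁ ∈ vtsL I) (hw₂ : w₂ ∈ vtsL I) (n1 : v₁ ≠ w₁) (n2 : v₁ ≠ w₂) (n3 : v₂ ≠ w₁)
    (n4 : v₂ ≠ w₂) (h : ¬ Cross (ppos I f w₁) (ppos I f w₂) (ppos I f v₁) (ppos I f v₂)) :
    ¬ Cross (ppos I f v₁) (ppos I f v₂) (ppos I f w₁) (ppos I f w₂) := fun hc =>
  h (cross_symm (fun e => n1 (ppos_inj hw₁ hv₁ e).symm) (fun e => n3 (ppos_inj hw₁ hv₂ e).symm)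
    (fun e => n2 (ppos_inj hw₂ hv₁ e).symm) (fun e => n4 (ppos_inj hw₂ hv₂ e).symm) hc)

/-- The chords of a constraint do not cross. -/
theorem not_cross_cons (hf : ∀ T ∈ I, ¬ ((f T.1 ↔ f T.2.1) ∧ (f T.2.1 ↔ f T.2.2)))
    {c : (Gd α × Gd α) × (Gd α × Gd α)} (hc : c ∈ consL I) {i : ℕ}
    {v₁ v₂ w₁ w₂ : Gd α × ℕ} (e1 : v₁.2 = i) (e2 : v₂.2 = i) (e3 : w₁.2 = i) (e4 : w₂.2 = i)
    (h1 : v₁.1 = c.1.1 ∨ v₁.1 = c.1.2) (h2 : v₂.1 = c.1.1 ∨ v₂.1 = c.1.2)
    (h3 : w₁.1 = c.2.1 ∨ w₁.1 = c.2.2) (h4 : w₂.1 = c.2.1 ∨ w₂.1 = c.2.2)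
    (hi : i < (consL I).length) :
    ¬ Cross (ppos I f v₁) (ppos I f v₂) (ppos I f w₁) (ppos I f w₂) := by
  have hok := cons_ok hf hc
  have hlt : ∀ a b : Gd α × ℕ, a.2 = i → b.2 = i →
      (ppos I f a < ppos I f b ↔ qpos I f a.1 < qpos I f b.1) := by
    intro a b ha hb
    constructor
    · intro h
      by_contra hcon
      rcases Nat.lt_or_eq_of_le (Nat.le_of_not_lt hcon) with h' | h'
      · have := ppos_lt (v := b) (w := a) (by omega) h'
        omega
      · unfold ppos at h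
        rw [h', ha, hb] at h
        omega
    · intro h
      exact ppos_lt (by omega) h
  have key : Cross (ppos I f v₁) (ppos I f v₂) (ppos I f w₁) (ppos I f w₂) ↔
      Cross (qpos I f v₁.1) (qpos I f v₂.1) (qpos I f w₁.1) (qpos I f w₂.1) := by
    unfold Cross
    rw [hlt v₁ w₁ e1 e3, hlt v₂ w₁ e2 e3, hlt v₁ w₂ e1 e4, hlt v₂ w₂ e2 e4]
  rw [key]
  rcases h1 with h1 | h1 <;> rcases h2 with h2 | h2 <;> rcases h3 with h3 | h3 <;>
    rcases h4 with h4 | h4 <;> rw [h1, h2, h3, h4]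
  all_goals first
    | exact cross_self
    | exact cross_self'
    | exact hok
    | (rw [cross_swap]; exact hok)
    | (rw [cross_swap']; exact hok)
    | (rw [cross_swap, cross_swap']; exact hok)

theorem hs_cases {i : ℕ} {A B : Gd α × Gd α} {v : Gd α × ℕ} (h : hs i A v = true)
    (h' : hs i B v = false) : v.2 = i ∧ (v.1 = A.1 ∨ v.1 = A.2) := by
  unfold hs at h h'
  simp only [List.mem_range, Bool.or_eq_true, Bool.and_eq_true, decide_eq_true_eq,
    Bool.or_eq_false_iff, Bool.and_eq_false_iff, decide_eq_false_iff_not] at h h'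
  rcases h with h | h
  · exact absurd h h'.1
  · exact h

theorem hs_chain {i k : ℕ} (hik : i < k) {A B : Gd α × Gd α} {v : Gd α × ℕ}
    (h : hs i A v = true) : hs k B v = true := by
  unfold hs at h ⊢
  simp only [List.mem_range, Bool.or_eq_true, Bool.and_eq_true, decide_eq_true_eq] at h ⊢
  left
  rcases h with h | h
  · omega
  · omega

/-- Completeness of the reduction. -/
theorem base_complete (hf : ∀ T ∈ I, ¬ ((f T.1 ↔ f T.2.1) ∧ (f T.2.1 ↔ f T.2.2))) :
    NonCrossing (vtsL I) (preds I) (ppos I f) := by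
  intro p hp q hq v₁ m1 v₂ m2 w₁ n1 w₂ n2 a1 a2 a3 a4 b1 b2 b3 b4
  have d1 : v₁ ≠ w₁ := fun e => by rw [e, b2] at a1; exact Bool.false_ne_true a1
  have d2 : v₁ ≠ w₂ := fun e => by rw [e, b4] at a1; exact Bool.false_ne_true a1
  have d3 : v₂ ≠ w₁ := fun e => by rw [e, b2] at a3; exact Bool.false_ne_true a3
  have d4 : v₂ ≠ w₂ := fun e => by rw [e, b4] at a3; exact Bool.false_ne_true a3
  unfold preds at hp hq
  rw [List.mem_append, List.mem_flatMap, List.mem_flatMap] at hp hq
  rcases hp with ⟨g, hg, hp⟩ | ⟨⟨c, i⟩, hc, hp⟩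
  · simp only [List.mem_cons, List.not_mem_nil, or_false] at hp
    rcases hp with rfl | rfl
    · simp only [hb, decide_eq_true_eq, decide_eq_false_iff_not] at a1 a3 b2 b4
      exact not_cross_block m1 m2 n1 n2 a1 a3 b2 b4
    · simp only [hb, Bool.not_eq_true', Bool.not_eq_false', decide_eq_true_eq,
        decide_eq_false_iff_not] at a1 a3 b2 b4
      exact cross_symm_ppos m1 m2 n1 n2 d1 d2 d3 d4 (not_cross_block n1 n2 m1 m2 b2 b4 a1 a3)
  · rcases hq with ⟨g, hg, hq⟩ | ⟨⟨c', k⟩, hc', hq⟩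
    · simp only [List.mem_cons, List.not_mem_nil, or_false] at hq
      rcases hq with rfl | rfl
      · simp only [hb, decide_eq_true_eq, decide_eq_false_iff_not] at a2 a4 b1 b3
        exact cross_symm_ppos m1 m2 n1 n2 d1 d2 d3 d4 (not_cross_block n1 n2 m1 m2 b1 b3 a2 a4)
      · simp only [hb, Bool.not_eq_true', Bool.not_eq_false', decide_eq_true_eq,
          decide_eq_false_iff_not] at a2 a4 b1 b3
        exact not_cross_block m1 m2 n1 n2 a2 a4 b1 b3
    · have e1 : ∃ A, p = hs i A ∧ (A = c.1 ∨ A = c.2) := by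
        simp only [List.mem_cons, List.not_mem_nil, or_false] at hp
        rcases hp with rfl | rfl
        · exact ⟨c.1, rfl, Or.inl rfl⟩
        · exact ⟨c.2, rfl, Or.inr rfl⟩
      have e2 : ∃ A, q = hs k A ∧ (A = c'.1 ∨ A = c'.2) := by
        simp only [List.mem_cons, List.not_mem_nil, or_false] at hq
        rcases hq with rfl | rfl
        · exact ⟨c'.1, rfl, Or.inl rfl⟩
        · exact ⟨c'.2, rfl, Or.inr rfl⟩
      obtain ⟨A, rfl, hA⟩ := e1
      obtain ⟨B, rfl, hB⟩ := e2
      rcases Nat.lt_trichotomy i k with hik | rfl | hik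
      · rw [hs_chain hik a1] at a2
        exact absurd a2 (by simp)
      · have hcc : (c', i) = (c, i) := zipIdx_inj hc hc' rfl
        have hcc' : c' = c := (Prod.mk.inj hcc).1
        rw [hcc'] at hB
        have hcl : c ∈ consL I := by
          rw [List.mem_zipIdx_iff_getElem?] at hc
          exact List.mem_of_getElem? hc
        have hil : i < (consL I).length := by
          rw [List.mem_zipIdx_iff_getElem?] at hc
          by_contra hcon
          rw [List.getElem?_eq_none (by simp only; omega)] at hc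
          exact absurd hc (by simp)
        obtain ⟨x1, x2⟩ := hs_cases a1 a2
        obtain ⟨x3, x4⟩ := hs_cases a3 a4
        obtain ⟨x5, x6⟩ := hs_cases b1 b2
        obtain ⟨x7, x8⟩ := hs_cases b3 b4
        rcases hA with rfl | rfl <;> rcases hB with rfl | rfl
        · rw [a1] at a2
          exact absurd a2 (by simp)
        · exact not_cross_cons hf hcl x1 x3 x5 x7 x2 x4 x6 x8 hil
        · exact cross_symm_ppos m1 m2 n1 n2 d1 d2 d3 d4
            (not_cross_cons hf hcl x5 x7 x1 x3 x6 x8 x2 x4 hil)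
        · rw [a1] at a2
          exact absurd a2 (by simp)
      · rw [hs_chain hik b1] at b2
        exact absurd b2 (by simp)

end

section
variable {α : Type} [DecidableEq α]

/-- The reduction for `t = 4`. -/
theorem base_iff (I : List (α × (α × α))) : NAESat I ↔ Free 4 (vtsL I).length (rows I) := by
  constructor
  · rintro ⟨f, hf⟩
    exact four_complete (vtsL_nodup I) (fun v hv w hw e => ppos_inj hv hw e) (base_complete hf)
  · intro h
    obtain ⟨P, hinj, hnc⟩ := four_sound h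
    exact base_sound hinj hnc

theorem length_rows (I : List (α × (α × α))) : ∀ A ∈ rows I, A.length = (vtsL I).length := by
  intro A hA
  unfold rows at hA
  rw [List.mem_map] at hA
  obtain ⟨p, _, rfl⟩ := hA
  rw [List.length_map]

end

end Pool.Agent.Lib.MP_71902e_lc
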