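import Pool.Agent.Lib.MP_71902e_lc.Alt

/-!
Crossing chords, and the case `t = 4`.
-/

namespace Pool.Agent.Lib.MP_71902e_lc

/-- Exactly one of `c`, `d` lies between `a` and `b` (for distinct numbers). -/
def Cross (a b c d : ℕ) : Prop := ¬ (((a < c) ↔ (b < c)) ↔ ((a < d) ↔ (b < d)))

theorem cross_cases {a b c d : ℕ} (h : Cross a b c d) (h1 : a ≠ c) (h2 : a ≠ d) (h3 : b ≠ c)
    (h4 : b ≠ d) : (a < c ∧ c < b ∧ b < d) ∨ (a < d ∧ d < b ∧ b < c) ∨
    (b < c ∧ c < a ∧ a < d) ∨ (b < d ∧ d < a ∧ a < c) ∨ (c < a ∧ a < d ∧ d < b) ∨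
    (c < b ∧ b < d ∧ d < a) ∨ (d < a ∧ a < c ∧ c < b) ∨ (d < b ∧ b < c ∧ c < a) := by
  unfold Cross at h
  rcases Nat.lt_or_gt_of_ne h1 with g1 | g1 <;> rcases Nat.lt_or_gt_of_ne h2 with g2 | g2 <;>
    rcases Nat.lt_or_gt_of_ne h3 with g3 | g3 <;> rcases Nat.lt_or_gt_of_ne h4 with g4 | g4 <;>
    simp_all [not_lt_of_gt]

theorem cross_self {a c d : ℕ} : ¬ Cross a a c d := by
  unfold Cross
  simp

theorem cross_self' {a b c : ℕ} : ¬ Cross a b c c := by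
  unfold Cross
  simp

theorem cross_symm {a b c d : ℕ} (h1 : a ≠ c) (h2 : a ≠ d) (h3 : b ≠ c) (h4 : b ≠ d) :
    Cross c d a b → Cross a b c d := by
  unfold Cross
  rcases Nat.lt_or_gt_of_ne h1 with g1 | g1 <;> rcases Nat.lt_or_gt_of_ne h2 with g2 | g2 <;>
    rcases Nat.lt_or_gt_of_ne h3 with g3 | g3 <;> rcases Nat.lt_or_gt_of_ne h4 with g4 | g4 <;>
    simp_all [not_lt_of_gt]

theorem cross_swap {a b c d : ℕ} : Cross b a c d ↔ Cross a b c d := by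
  unfold Cross
  tauto

theorem cross_swap' {a b c d : ℕ} : Cross a b d c ↔ Cross a b c d := by
  unfold Cross
  tauto

theorem cross_replace {x x' y z w : ℕ} (h1 : ¬ Cross x y z w) (h2 : ¬ Cross x x' z w) :
    ¬ Cross x' y z w := by
  unfold Cross at *
  tauto

theorem not_nae {R M B U X Y Z : ℕ} (h1 : ¬ Cross Y B R M) (h2 : ¬ Cross X R B U)
    (h3 : ¬ Cross X U B R) (h4 : ¬ Cross U R Z M) (h5 : ¬ Cross U M Z R)
    (d1 : R ≠ M) (d2 : R ≠ B) (d3 : R ≠ U) (d4 : M ≠ B) (d5 : M ≠ U) (d6 : B ≠ U)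
    (x1 : X ≠ R) (x2 : X ≠ M) (x3 : X ≠ B) (x4 : X ≠ U)
    (y1 : Y ≠ R) (y2 : Y ≠ M)
    (z1 : Z ≠ R) (z2 : Z ≠ M) (z4 : Z ≠ U)
    (e1 : (R < X ↔ M < X) ↔ (R < Y ↔ M < Y)) (e2 : (R < Y ↔ M < Y) ↔ (R < Z ↔ M < Z)) :
    False := by
  unfold Cross at h1 h2 h3 h4 h5
  have k1 : (R < Y ↔ M < Y) ↔ (R < B ↔ M < B) := by
    clear h2 h3 h4 h5 e1 e2
    rcases Nat.lt_or_gt_of_ne y1 with g1 | g1 <;> rcases Nat.lt_or_gt_of_ne y2 with g2 | g2 <;>
    rcases Nat.lt_or_gt_of_ne d2 with g3 | g3 <;> rcases Nat.lt_or_gt_of_ne d4 with g4 | g4 <;>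
    simp_all [not_lt_of_gt]
  have k2 : ¬ ((R < Z ↔ M < Z) ↔ (R < U ↔ M < U)) := by
    clear h1 h2 h3 e1 e2 k1
    rcases Nat.lt_or_gt_of_ne z1 with g1 | g1 <;> rcases Nat.lt_or_gt_of_ne z2 with g2 | g2 <;>
    rcases Nat.lt_or_gt_of_ne z4 with g3 | g3 <;> rcases Nat.lt_or_gt_of_ne d3 with g4 | g4 <;>
    rcases Nat.lt_or_gt_of_ne d5 with g5 | g5 <;> rcases Nat.lt_or_gt_of_ne d1 with g6 | g6 <;>
    simp_all [not_lt_of_gt]
  have k3 : (R < X ↔ M < X) ↔ (R < B ↔ M < B) := e1.trans k1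
  have k4 : ¬ ((R < X ↔ M < X) ↔ (R < U ↔ M < U)) := fun h => k2 ((e1.trans e2).symm.trans h)
  clear h1 h4 h5 e1 e2 k1 k2 y1 y2 z1 z2 z4
  omega

section
variable {W : Type} [DecidableEq W]

omit [DecidableEq W] in
theorem mem_map_row {VL : List W} {p : W → Bool} {i : ℕ} :
    mem (VL.map p) i ↔ ∃ h : i < VL.length, p VL[i] = true := by
  unfold mem
  rw [List.getD_eq_getElem?_getD, List.getElem?_map]
  by_cases h : i < VL.length
  · rw [List.getElem?_eq_getElem h]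
    simp [h]
  · rw [List.getElem?_eq_none (by omega)]
    simp [h]

/-- The case `t = 4` in terms of crossing chords. -/
def NonCrossing (VL : List W) (preds : List (W → Bool)) (P : W → ℕ) : Prop :=
  ∀ p ∈ preds, ∀ q ∈ preds, ∀ v₁ ∈ VL, ∀ v₂ ∈ VL, ∀ w₁ ∈ VL, ∀ w₂ ∈ VL,
    p v₁ = true → q v₁ = false → p v₂ = true → q v₂ = false →
    q w₁ = true → p w₁ = false → q w₂ = true → p w₂ = false →
    ¬ Cross (P v₁) (P v₂) (P w₁) (P w₂)

theorem four_sound {VL : List W} {preds : List (W → Bool)}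
    (h : Free 4 VL.length (preds.map fun p => VL.map p)) :
    ∃ P : W → ℕ, (∀ v ∈ VL, ∀ w ∈ VL, P v = P w → v = w) ∧ NonCrossing VL preds P := by
  obtain ⟨pos, hinj, hfree⟩ := h
  have hidx : ∀ v ∈ VL, VL.idxOf v < VL.length := fun v hv => List.idxOf_lt_length_iff.2 hv
  have hget : ∀ v (hv : v ∈ VL), VL[VL.idxOf v]'(hidx v hv) = v := fun v hv =>
    List.getElem_idxOf (hidx v hv)
  refine ⟨fun v => pos (VL.idxOf v), fun v hv w hw he => ?_, ?_⟩
  · have := hinj _ (hidx v hv) _ (hidx w hw) he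
    exact (List.idxOf_inj hv).1 this
  · intro p hp q hq v₁ m1 v₂ m2 w₁ n1 w₂ n2 a1 a2 a3 a4 b1 b2 b3 b4 hc
    have hm : ∀ r : W → Bool, ∀ v ∈ VL, (mem (VL.map r) (VL.idxOf v) ↔ r v = true) := by
      intro r v hv
      rw [mem_map_row]
      constructor
      · rintro ⟨_, h⟩
        rwa [hget v hv] at h
      · intro h
        exact ⟨hidx v hv, by rwa [hget v hv]⟩
    have hm' : ∀ r : W → Bool, ∀ v ∈ VL, r v = false → ¬ mem (VL.map r) (VL.idxOf v) := by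
      intro r v hv h h'
      rw [hm r v hv, h] at h'
      exact Bool.false_ne_true h'
    have hp' : VL.map p ∈ preds.map fun p => VL.map p := List.mem_map_of_mem hp
    have hq' : VL.map q ∈ preds.map fun p => VL.map p := List.mem_map_of_mem hq
    -- building an alternation
    have build : ∀ r s : W → Bool, VL.map r ∈ preds.map (fun p => VL.map p) →
        VL.map s ∈ preds.map (fun p => VL.map p) → ∀ a ∈ VL, ∀ b ∈ VL, ∀ c ∈ VL, ∀ d ∈ VL,
        r a = true → s a = false → s b = true → r b = false → r c = true → s c = false →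
        s d = true → r d = false → pos (VL.idxOf a) < pos (VL.idxOf b) →
        pos (VL.idxOf b) < pos (VL.idxOf c) → pos (VL.idxOf c) < pos (VL.idxOf d) → False := by
      intro r s hr hs a ha b hb c hc d hd a1 a2 b1 b2 c1 c2 d1 d2 l1 l2 l3
      refine hfree _ hr _ hs ⟨[VL.idxOf a, VL.idxOf b, VL.idxOf c, VL.idxOf d], rfl, ?_, ?_, ?_⟩
      · intro x hx
        simp only [List.mem_cons, List.not_mem_nil, or_false] at hx
        rcases hx with rfl | rfl | rfl | rfl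
        · exact hidx a ha
        · exact hidx b hb
        · exact hidx c hc
        · exact hidx d hd
      · simp only [List.pairwise_cons, List.mem_cons, List.not_mem_nil, or_false,
          forall_eq_or_imp, forall_eq, List.Pairwise.nil, and_true, IsEmpty.forall_iff,
          implies_true]
        omega
      · exact ⟨⟨(hm r a ha).2 a1, hm' s a ha a2⟩, ⟨(hm s b hb).2 b1, hm' r b hb b2⟩,
          ⟨(hm r c hc).2 c1, hm' s c hc c2⟩, ⟨(hm s d hd).2 d1, hm' r d hd d2⟩, trivial⟩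
    have hne : ∀ a ∈ VL, ∀ b ∈ VL, p a = true → p b = false →
        pos (VL.idxOf a) ≠ pos (VL.idxOf b) := by
      intro a ha b hb h1 h2 he
      have := (List.idxOf_inj ha).1 (hinj _ (hidx a ha) _ (hidx b hb) he)
      rw [this, h2] at h1
      exact Bool.false_ne_true h1
    rcases cross_cases hc (hne _ m1 _ n1 a1 b2) (hne _ m1 _ n2 a1 b4) (hne _ m2 _ n1 a3 b2)
      (hne _ m2 _ n2 a3 b4) with ⟨l1, l2, l3⟩ | ⟨l1, l2, l3⟩ | ⟨l1, l2, l3⟩ | ⟨l1, l2, l3⟩ |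
        ⟨l1, l2, l3⟩ | ⟨l1, l2, l3⟩ | ⟨l1, l2, l3⟩ | ⟨l1, l2, l3⟩
    · exact build p q hp' hq' v₁ m1 w₁ n1 v₂ m2 w₂ n2 a1 a2 b1 b2 a3 a4 b3 b4 l1 l2 l3
    · exact build p q hp' hq' v₁ m1 w₂ n2 v₂ m2 w₁ n1 a1 a2 b3 b4 a3 a4 b1 b2 l1 l2 l3
    · exact build p q hp' hq' v₂ m2 w₁ n1 v₁ m1 w₂ n2 a3 a4 b1 b2 a1 a2 b3 b4 l1 l2 l3
    · exact build p q hp' hq' v₂ m2 w₂ n2 v₁ m1 w₁ n1 a3 a4 b3 b4 a1 a2 b1 b2 l1 l2 l3
    · exact build q p hq' hp' w₁ n1 v₁ m1 w₂ n2 v₂ m2 b1 b2 a1 a2 b3 b4 a3 a4 l1 l2 l3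
    · exact build q p hq' hp' w₁ n1 v₂ m2 w₂ n2 v₁ m1 b1 b2 a3 a4 b3 b4 a1 a2 l1 l2 l3
    · exact build q p hq' hp' w₂ n2 v₁ m1 w₁ n1 v₂ m2 b3 b4 a1 a2 b1 b2 a3 a4 l1 l2 l3
    · exact build q p hq' hp' w₂ n2 v₂ m2 w₁ n1 v₁ m1 b3 b4 a3 a4 b1 b2 a1 a2 l1 l2 l3

omit [DecidableEq W] in
theorem four_complete {VL : List W} (hn : VL.Nodup) {preds : List (W → Bool)} {P : W → ℕ}
    (hinj : ∀ v ∈ VL, ∀ w ∈ VL, P v = P w → v = w) (hnc : NonCrossing VL preds P) :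
    Free 4 VL.length (preds.map fun p => VL.map p) := by
  refine ⟨fun i => if h : i < VL.length then P VL[i] else 0, ?_, ?_⟩
  · intro i hi j hj he
    simp only [dif_pos hi, dif_pos hj] at he
    have := hinj _ (List.getElem_mem hi) _ (List.getElem_mem hj) he
    exact (List.Nodup.getElem_inj_iff hn).1 this
  · intro A hA B hB halt
    rw [List.mem_map] at hA hB
    obtain ⟨p, hp, rfl⟩ := hA
    obtain ⟨q, hq, rfl⟩ := hB
    obtain ⟨xs, h1, h2, h3, h4⟩ := halt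
    obtain ⟨a, b, c, d, rfl⟩ : ∃ a b c d, xs = [a, b, c, d] := by
      match xs, h1 with
      | [a, b, c, d], _ => exact ⟨a, b, c, d, rfl⟩
    simp only [List.mem_cons, List.not_mem_nil, or_false, forall_eq_or_imp, forall_eq] at h2
    obtain ⟨ha, hb, hc, hd⟩ := h2
    simp only [List.pairwise_cons, List.mem_cons, List.not_mem_nil, or_false,
      forall_eq_or_imp, forall_eq, List.Pairwise.nil, and_true, IsEmpty.forall_iff,
      implies_true, dif_pos ha, dif_pos hb, dif_pos hc, dif_pos hd] at h3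
    simp only [altL, and_true, mem_map_row] at h4
    have hf : ∀ (r : W → Bool) (i : ℕ) (hi : i < VL.length),
        (¬ ∃ h : i < VL.length, r VL[i] = true) → r VL[i] = false := by
      intro r i hi h
      by_contra hcon
      exact h ⟨hi, by simpa using hcon⟩
    refine hnc p hp q hq VL[a] (List.getElem_mem ha) VL[c] (List.getElem_mem hc) VL[b]
      (List.getElem_mem hb) VL[d] (List.getElem_mem hd) h4.1.1.2 (hf q a ha h4.1.2)
      h4.2.2.1.1.2 (hf q c hc h4.2.2.1.2) h4.2.1.1.2 (hf p b hb h4.2.1.2) h4.2.2.2.1.2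
      (hf p d hd h4.2.2.2.2) ?_
    unfold Cross
    omega

end

end Pool.Agent.Lib.MP_71902e_lc
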