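import Mathlib

/-!
Alternation-free hypergraphs and their recognition problem.
-/

namespace Pool.Agent.Lib.MP_71902e_lc

/-- With respect to the linear order `lt` of the vertices, `A` and `B` form an
`(AB)^{t/2}`-sequence: there are vertices `x 0 < x 1 < … < x (t-1)` which alternately belong to
`A \ B` and to `B \ A`, the first one to `A \ B`. -/
def FormsSequence {V : Type} (lt : V → V → Prop) (t : ℕ) (A B : Set V) : Prop :=
  ∃ x : Fin t → V, (∀ i j, i < j → lt (x i) (x j)) ∧
    ∀ i : Fin t, (i.val % 2 = 0 → x i ∈ A \ B) ∧ (i.val % 2 = 1 → x i ∈ B \ A)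

/-- The hypergraph with vertex set `V` and hyperedges `E` is `(AB)^{t/2}`-free: for some linear
order of `V` no two hyperedges form an `(AB)^{t/2}`-sequence. -/
def AlternationFree {V : Type} (t : ℕ) (E : List (Set V)) : Prop :=
  ∃ lt : V → V → Prop, IsStrictTotalOrder V lt ∧
    ∀ A ∈ E, ∀ B ∈ E, ¬ FormsSequence lt t A B

open Classical in
/-- A hypergraph on the vertex set `{0, …, n-1}` as a bit string: `n` times `1`, then `0`, then for
every hyperedge its characteristic vector (the columns of the incidence matrix). -/
noncomputable def hypergraphWord (n : ℕ) (E : List (Set (Fin n))) : List Bool :=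
  List.replicate n true ++ false :: E.flatMap fun A => List.ofFn fun v => decide (v ∈ A)

/-- The recognition problem of `(AB)^{t/2}`-free hypergraphs: the words of the `(AB)^{t/2}`-free
hypergraphs. -/
def alternationFreeHypergraphs (t : ℕ) : Set (List Bool) :=
  {w | ∃ (n : ℕ) (E : List (Set (Fin n))), w = hypergraphWord n E ∧ AlternationFree t E}

end Pool.Agent.Lib.MP_71902e_lc
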