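import Pool.Agent.Lib.MP_71902e_lc.Alt

/-!
From `t = 4` to `t = 5`.
-/

namespace Pool.Agent.Lib.MP_71902e_lc

/-- Rows of the sets consisting of the first new vertex and one other new vertex, and of their
complements. -/
def force (n : ℕ) : List (List Bool) :=
  (List.range 5).flatMap fun k =>
    [(List.range n).map (fun _ => false) ++
        true :: (List.range 5).map (fun j => decide (j = k)),
     (List.range n).map (fun _ => true) ++
        false :: (List.range 5).map (fun j => !decide (j = k))]

/-- The rows of the hypergraph for `t = 5`. -/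
def step1 (n : ℕ) (R : List (List Bool)) : List (List Bool) :=
  (R.flatMap fun A => [A ++ [false, false, false, false, false, false],
    A ++ [true, false, false, false, false, false]]) ++ force n

theorem mem_last {A z : List Bool} {b : Bool} {n i : ℕ} (hA : A.length = n) :
    mem (A ++ b :: z) i ↔ (i < n ∧ mem A i) ∨ (i = n ∧ b = true) ∨ (n < i ∧ mem z (i - (n + 1))) := by
  by_cases h : i < n
  · rw [mem_append_left hA h]
    constructor
    · intro h'; exact Or.inl ⟨h, h'⟩
    · rintro (⟨_, h'⟩ | ⟨h', _⟩ | ⟨h', _⟩)
      · exact h'
      · omega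
      · omega
  · rw [mem_append_right hA (by omega)]
    by_cases h' : i = n
    · subst h'
      unfold mem
      simp
    · have e : i - n = (i - (n + 1)) + 1 := by omega
      unfold mem
      rw [e, List.getD_cons_succ]
      constructor
      · intro g; exact Or.inr (Or.inr ⟨by omega, g⟩)
      · rintro (⟨g, _⟩ | ⟨g, _⟩ | ⟨_, g⟩)
        · omega
        · omega
        · exact g

theorem three_sorted {f : Fin 5 → ℕ} (hf : Function.Injective f) {S : Finset (Fin 5)}
    (hS : 2 < S.card) : ∃ a ∈ S, ∃ b ∈ S, ∃ c ∈ S, f a < f b ∧ f b < f c := by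
  obtain ⟨a, ha, b, hb, c, hc, hab, hac, hbc⟩ := Finset.two_lt_card.1 hS
  have h1 : f a ≠ f b := fun h => hab (hf h)
  have h2 : f a ≠ f c := fun h => hac (hf h)
  have h3 : f b ≠ f c := fun h => hbc (hf h)
  rcases Nat.lt_or_gt_of_ne h1 with g1 | g1 <;> rcases Nat.lt_or_gt_of_ne h2 with g2 | g2 <;>
    rcases Nat.lt_or_gt_of_ne h3 with g3 | g3
  · exact ⟨a, ha, b, hb, c, hc, g1, g3⟩
  · exact ⟨a, ha, c, hc, b, hb, g2, g3⟩
  · omega
  · exact ⟨c, hc, a, ha, b, hb, g2, g1⟩
  · exact ⟨b, hb, a, ha, c, hc, g1, g2⟩
  · omega
  · exact ⟨b, hb, c, hc, a, ha, g3, g2⟩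
  · exact ⟨c, hc, b, hb, a, ha, g3, g1⟩

/-- The set of the first and the `k`-th other new vertex. -/
def frow (n k : ℕ) : List Bool :=
  (List.range n).map (fun _ => false) ++ true :: (List.range 5).map (fun j => decide (j = k))

/-- Its complement. -/
def grow (n k : ℕ) : List Bool :=
  (List.range n).map (fun _ => true) ++ false :: (List.range 5).map (fun j => !decide (j = k))

theorem mem_frow {n k i : ℕ} (hk : k < 5) :
    mem (frow n k) i ↔ i = n ∨ i = n + 1 + k := by
  unfold frow
  rw [mem_last (n := n) (by simp), mem_range_map, mem_range_map]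
  simp only [decide_eq_true_eq, Bool.false_eq_true, and_false, false_or, and_true]
  omega

theorem mem_grow {n k i : ℕ} (hi : i < n + 6) :
    mem (grow n k) i ↔ ¬ (i = n ∨ i = n + 1 + k) := by
  unfold grow
  rw [mem_last (n := n) (by simp), mem_range_map, mem_range_map]
  simp only [Bool.not_eq_true', decide_eq_false_iff_not, and_true, Bool.false_eq_true,
    and_false, false_or]
  omega

theorem mem_force {n : ℕ} {A : List Bool} :
    A ∈ force n ↔ ∃ k < 5, A = frow n k ∨ A = grow n k := by
  unfold force
  simp only [List.mem_flatMap, List.mem_range, List.mem_cons, List.not_mem_nil, or_false]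
  rfl

theorem step1_sound {n : ℕ} {R : List (List Bool)} (hR : ∀ A ∈ R, A.length = n)
    (h : Free 5 (n + 6) (step1 n R)) : Free 4 n R := by
  obtain ⟨pos, hinj, hfree⟩ := h
  have hF : ∀ k < 5, frow n k ∈ step1 n R ∧ grow n k ∈ step1 n R := by
    intro k hk
    unfold step1
    exact ⟨List.mem_append_right _ (mem_force.2 ⟨k, hk, Or.inl rfl⟩),
      List.mem_append_right _ (mem_force.2 ⟨k, hk, Or.inr rfl⟩)⟩
  have hR0 : ∀ A ∈ R, (A ++ [false, false, false, false, false, false]) ∈ step1 n R ∧
      (A ++ [true, false, false, false, false, false]) ∈ step1 n R := by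
    intro A hA
    unfold step1
    constructor <;> refine List.mem_append_left _ (List.mem_flatMap.2 ⟨A, hA, ?_⟩) <;> simp
  have hfi : Function.Injective (fun k : Fin 5 => pos (n + 1 + k)) := by
    intro a b hab
    have := hinj (n + 1 + a) (by omega) (n + 1 + b) (by omega) hab
    exact Fin.ext (by omega)
  -- the new vertex is extremal
  have hext : (∀ i < n, pos n < pos i) ∨ (∀ i < n, pos i < pos n) := by
    by_contra hcon
    push Not at hcon
    obtain ⟨⟨i₁, hi₁, h1⟩, i₂, hi₂, h2⟩ := hcon
    have h1' : pos i₁ < pos n := by
      have : pos i₁ ≠ pos n := fun he => by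
        have := hinj i₁ (by omega) n (by omega) he
        omega
      omega
    have h2' : pos n < pos i₂ := by
      have : pos i₂ ≠ pos n := fun he => by
        have := hinj i₂ (by omega) n (by omega) he
        omega
      omega
    have hcard := Finset.card_filter_add_card_filter_not
      (s := (Finset.univ : Finset (Fin 5))) (fun k : Fin 5 => pos (n + 1 + k) < pos n)
    rw [Finset.card_univ, Fintype.card_fin] at hcard
    have hcase : 2 < (Finset.univ.filter fun k : Fin 5 => pos (n + 1 + k) < pos n).card ∨
        2 < (Finset.univ.filter fun k : Fin 5 => ¬ pos (n + 1 + k) < pos n).card := by omega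
    rcases hcase with hc | hc
    · obtain ⟨a, ha, b, hb, c, hc, hab, hbc⟩ := three_sorted hfi hc
      simp only [Finset.mem_filter, Finset.mem_univ, true_and] at ha hb hc hab hbc
      refine hfree _ (hF b b.2).2 _ (hF b b.2).1 ⟨[n + 1 + a, n + 1 + b, n + 1 + c, n, i₂], rfl,
        ?_, ?_, ?_⟩
      · intro x hx
        simp only [List.mem_cons, List.not_mem_nil, or_false] at hx
        omega
      · simp only [List.pairwise_cons, List.mem_cons, List.not_mem_nil, or_false,
          forall_eq_or_imp, forall_eq, List.Pairwise.nil, and_true, IsEmpty.forall_iff,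
          implies_true]
        omega
      · have hne : (a : ℕ) ≠ b := fun h => by rw [h] at hab; omega
        have hne' : (c : ℕ) ≠ b := fun h => by rw [h] at hbc; omega
        simp only [altL, mem_frow b.2, mem_grow (n := n) (k := b) (i := n + 1 + a) (by omega),
          mem_grow (n := n) (k := b) (i := n + 1 + b) (by omega),
          mem_grow (n := n) (k := b) (i := n + 1 + c) (by omega),
          mem_grow (n := n) (k := b) (i := n) (by omega),
          mem_grow (n := n) (k := b) (i := i₂) (by omega), or_true, true_or, not_true_eq_false,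
          not_false_eq_true, and_true, true_and]
        omega
    · obtain ⟨a, ha, b, hb, c, hc, hab, hbc⟩ := three_sorted hfi hc
      simp only [Finset.mem_filter, Finset.mem_univ, true_and] at ha hb hc hab hbc
      have hna : pos (n + 1 + a) ≠ pos n := fun he => by
        have := hinj (n + 1 + a) (by omega) n (by omega) he
        omega
      refine hfree _ (hF b b.2).2 _ (hF b b.2).1 ⟨[i₁, n, n + 1 + a, n + 1 + b, n + 1 + c], rfl,
        ?_, ?_, ?_⟩
      · intro x hx
        simp only [List.mem_cons, List.not_mem_nil, or_false] at hx
        omega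
      · simp only [List.pairwise_cons, List.mem_cons, List.not_mem_nil, or_false,
          forall_eq_or_imp, forall_eq, List.Pairwise.nil, and_true, IsEmpty.forall_iff,
          implies_true]
        omega
      · have hne : (a : ℕ) ≠ b := fun h => by rw [h] at hab; omega
        have hne' : (c : ℕ) ≠ b := fun h => by rw [h] at hbc; omega
        simp only [altL, mem_frow b.2, mem_grow (n := n) (k := b) (i := n + 1 + a) (by omega),
          mem_grow (n := n) (k := b) (i := n + 1 + b) (by omega),
          mem_grow (n := n) (k := b) (i := n + 1 + c) (by omega),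
          mem_grow (n := n) (k := b) (i := n) (by omega),
          mem_grow (n := n) (k := b) (i := i₁) (by omega), or_true, true_or, not_true_eq_false,
          not_false_eq_true, and_true, true_and]
        omega
  refine ⟨pos, fun i hi j hj => hinj i (by omega) j (by omega), fun A hA B hB halt => ?_⟩
  obtain ⟨xs, h1, h2, h3, h4⟩ := halt
  have m0 : ∀ C ∈ R, ¬ mem (C ++ [false, false, false, false, false, false]) n := by
    intro C hC
    rw [mem_append_right (hR C hC) (le_refl n), Nat.sub_self]
    simp [mem]
  have m1 : ∀ C ∈ R, mem (C ++ [true, false, false, false, false, false]) n := by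
    intro C hC
    rw [mem_append_right (hR C hC) (le_refl n), Nat.sub_self]
    simp [mem]
  rcases hext with hext | hext
  · refine hfree _ (hR0 B hB).2 _ (hR0 A hA).1 ⟨n :: xs, ?_, ?_, ?_, ⟨m1 B hB, m0 A hA⟩, ?_⟩
    · rw [List.length_cons, h1]
    · intro x hx
      rw [List.mem_cons] at hx
      rcases hx with rfl | hx
      · omega
      · have := h2 x hx; omega
    · rw [List.pairwise_cons]
      exact ⟨fun x hx => hext x (h2 x hx), h3⟩
    · exact (altL_congr (fun x hx => (mem_append_left (hR A hA) (h2 x hx)).symm)
        (fun x hx => (mem_append_left (hR B hB) (h2 x hx)).symm)).1 h4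
  · refine hfree _ (hR0 A hA).2 _ (hR0 B hB).1 ⟨xs ++ [n], ?_, ?_, ?_, ?_⟩
    · rw [List.length_append, h1]; rfl
    · intro x hx
      rw [List.mem_append, List.mem_singleton] at hx
      rcases hx with hx | rfl
      · have := h2 x hx; omega
      · omega
    · rw [List.pairwise_append]
      refine ⟨h3, List.pairwise_singleton _ _, fun a ha b hb => ?_⟩
      rw [List.mem_singleton] at hb
      subst hb
      exact hext a (h2 a ha)
    · rw [altL_append, h1, if_pos (by norm_num)]
      refine ⟨(altL_congr (fun x hx => (mem_append_left (hR A hA) (h2 x hx)).symm)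
        (fun x hx => (mem_append_left (hR B hB) (h2 x hx)).symm)).1 h4,
        ⟨m1 A hA, m0 B hB⟩, trivial⟩

/-- An order extending `pos` in which the vertex `n` comes first and the other new ones last. -/
def posFive (pos : ℕ → ℕ) (n i : ℕ) : ℕ :=
  if i = n then 0 else posLast pos n i + 1

theorem step1_complete {n : ℕ} {R : List (List Bool)} (hR : ∀ A ∈ R, A.length = n)
    (h : Free 4 n R) : Free 5 (n + 6) (step1 n R) := by
  obtain ⟨pos, hinj, hfree⟩ := h
  refine ⟨posFive pos n, ?_, ?_⟩
  · intro i _ j _ he
    unfold posFive at he
    by_cases hi : i = n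
    · by_cases hj : j = n
      · rw [hi, hj]
      · rw [if_pos hi, if_neg hj] at he
        omega
    · by_cases hj : j = n
      · rw [if_neg hi, if_pos hj] at he
        omega
      · rw [if_neg hi, if_neg hj] at he
        exact posLast_inj hinj (by omega)
  -- the forcing sets are harmless
  have hharm : ∀ k < 5, ∀ a b c d e : ℕ, posFive pos n a < posFive pos n b →
      posFive pos n b < posFive pos n c → posFive pos n c < posFive pos n d →
      posFive pos n d < posFive pos n e →
      ¬ ((b = n ∨ b = n + 1 + k) ∧ (d = n ∨ d = n + 1 + k)) ∧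
      ¬ ((a = n ∨ a = n + 1 + k) ∧ (c = n ∨ c = n + 1 + k) ∧ (e = n ∨ e = n + 1 + k)) := by
    intro k _ a b c d e h1 h2 h3 h4
    have h0 : posFive pos n n = 0 := by unfold posFive; rw [if_pos rfl]
    constructor
    · rintro ⟨rfl | rfl, rfl | rfl⟩ <;> omega
    · rintro ⟨rfl | rfl, rfl | rfl, rfl | rfl⟩ <;> omega
  intro A' hA' B' hB' halt
  obtain ⟨xs, h1, h2, h3, h4⟩ := halt
  obtain ⟨a, b, c, d, e, rfl⟩ : ∃ a b c d e, xs = [a, b, c, d, e] := by
    match xs, h1 with
    | [a, b, c, d, e], _ => exact ⟨a, b, c, d, e, rfl⟩
  simp only [List.mem_cons, List.not_mem_nil, or_false, forall_eq_or_imp, forall_eq] at h2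
  simp only [List.pairwise_cons, List.mem_cons, List.not_mem_nil, or_false,
    forall_eq_or_imp, forall_eq, List.Pairwise.nil, and_true, IsEmpty.forall_iff,
    implies_true] at h3
  simp only [altL, and_true] at h4
  unfold step1 at hA' hB'
  rw [List.mem_append] at hA' hB'
  rcases hA' with hA' | hA'
  · rcases hB' with hB' | hB'
    · rw [List.mem_flatMap] at hA' hB'
      obtain ⟨A, hA, hA'⟩ := hA'
      obtain ⟨B, hB, hB'⟩ := hB'
      -- no new vertex other than `n` can occur
      have hlow : ∀ C ∈ R, ∀ C' ∈ [C ++ [false, false, false, false, false, false],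
          C ++ [true, false, false, false, false, false]], ∀ i, mem C' i → i ≤ n := by
        intro C hC C' hC' i hi
        by_contra hcon
        simp only [List.mem_cons, List.not_mem_nil, or_false] at hC'
        rcases hC' with rfl | rfl
        · rw [mem_last (hR C hC)] at hi
          rcases hi with ⟨g, _⟩ | ⟨g, _⟩ | ⟨_, g⟩
          · omega
          · omega
          · unfold mem at g
            rw [List.getD_eq_getElem?_getD] at g
            have : ∀ l : List Bool, (∀ x ∈ l, x = false) → ∀ j : ℕ, (l[j]?).getD false = false := by
              intro l hl j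
              by_cases hj : j < l.length
              · rw [List.getElem?_eq_getElem hj]
                exact hl _ (List.getElem_mem hj)
              · rw [List.getElem?_eq_none (by omega)]
                rfl
            rw [this _ (by simp)] at g
            exact Bool.false_ne_true g
        · rw [mem_last (hR C hC)] at hi
          rcases hi with ⟨g, _⟩ | ⟨g, _⟩ | ⟨_, g⟩
          · omega
          · omega
          · unfold mem at g
            rw [List.getD_eq_getElem?_getD] at g
            have : ∀ l : List Bool, (∀ x ∈ l, x = false) → ∀ j : ℕ, (l[j]?).getD false = false := by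
              intro l hl j
              by_cases hj : j < l.length
              · rw [List.getElem?_eq_getElem hj]
                exact hl _ (List.getElem_mem hj)
              · rw [List.getElem?_eq_none (by omega)]
                rfl
            rw [this _ (by simp)] at g
            exact Bool.false_ne_true g
      have h0 : posFive pos n n = 0 := by unfold posFive; rw [if_pos rfl]
      have lb := hlow B hB B' hB' b h4.2.1.1
      have lc := hlow A hA A' hA' c h4.2.2.1.1
      have ld := hlow B hB B' hB' d h4.2.2.2.1.1
      have le := hlow A hA A' hA' e h4.2.2.2.2.1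
      have hb : b < n := by
        rcases Nat.lt_or_ge b n with g | g
        · exact g
        · exfalso
          have : b = n := by omega
          subst this; omega
      have hc : c < n := by
        rcases Nat.lt_or_ge c n with g | g
        · exact g
        · exfalso
          have : c = n := by omega
          subst this; omega
      have hd : d < n := by
        rcases Nat.lt_or_ge d n with g | g
        · exact g
        · exfalso
          have : d = n := by omega
          subst this; omega
      have he : e < n := by
        rcases Nat.lt_or_ge e n with g | g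
        · exact g
        · exfalso
          have : e = n := by omega
          subst this; omega
      have hold : ∀ i < n, posFive pos n i = pos i + 1 := by
        intro i hi
        unfold posFive posLast
        rw [if_neg (by omega), if_pos hi]
      have hmm : ∀ C ∈ R, ∀ C' ∈ [C ++ [false, false, false, false, false, false],
          C ++ [true, false, false, false, false, false]], ∀ i < n, mem C' i ↔ mem C i := by
        intro C hC C' hC' i hi
        simp only [List.mem_cons, List.not_mem_nil, or_false] at hC'
        rcases hC' with rfl | rfl <;> exact mem_append_left (hR C hC) hi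
      refine hfree B hB A hA ⟨[b, c, d, e], rfl, ?_, ?_, ?_⟩
      · intro x hx
        simp only [List.mem_cons, List.not_mem_nil, or_false] at hx
        omega
      · simp only [List.pairwise_cons, List.mem_cons, List.not_mem_nil, or_false,
          forall_eq_or_imp, forall_eq, List.Pairwise.nil, and_true, IsEmpty.forall_iff,
          implies_true]
        rw [hold b hb, hold c hc, hold d hd, hold e he] at h3
        omega
      · simp only [altL, and_true]
        rw [hmm A hA A' hA' b hb, hmm A hA A' hA' c hc, hmm A hA A' hA' d hd,
          hmm A hA A' hA' e he, hmm B hB B' hB' b hb, hmm B hB B' hB' c hc,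
          hmm B hB B' hB' d hd, hmm B hB B' hB' e he] at h4
        tauto
    · rw [mem_force] at hB'
      obtain ⟨k, hk, rfl | rfl⟩ := hB'
      · have := hharm k hk a b c d e (by omega) (by omega) (by omega) (by omega)
        rw [mem_frow hk, mem_frow hk, mem_frow hk, mem_frow hk, mem_frow hk] at h4
        exact this.1 ⟨h4.2.1.1, h4.2.2.2.1.1⟩
      · have := hharm k hk a b c d e (by omega) (by omega) (by omega) (by omega)
        rw [mem_grow h2.1, mem_grow h2.2.1, mem_grow h2.2.2.1, mem_grow h2.2.2.2.1,
          mem_grow h2.2.2.2.2] at h4
        simp only [not_not] at h4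
        exact this.2 ⟨h4.1.2, h4.2.2.1.2, h4.2.2.2.2.2⟩
  · rw [mem_force] at hA'
    obtain ⟨k, hk, rfl | rfl⟩ := hA'
    · have := hharm k hk a b c d e (by omega) (by omega) (by omega) (by omega)
      rw [mem_frow hk, mem_frow hk, mem_frow hk, mem_frow hk, mem_frow hk] at h4
      exact this.2 ⟨h4.1.1, h4.2.2.1.1, h4.2.2.2.2.1⟩
    · have := hharm k hk a b c d e (by omega) (by omega) (by omega) (by omega)
      rw [mem_grow h2.1, mem_grow h2.2.1, mem_grow h2.2.2.1, mem_grow h2.2.2.2.1,
        mem_grow h2.2.2.2.2] at h4
      simp only [not_not] at h4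
      exact this.1 ⟨h4.2.1.2, h4.2.2.2.1.2⟩

theorem length_step1 {n : ℕ} {R : List (List Bool)} (hR : ∀ A ∈ R, A.length = n) :
    ∀ A ∈ step1 n R, A.length = n + 6 := by
  intro A' hA'
  unfold step1 at hA'
  rw [List.mem_append, List.mem_flatMap] at hA'
  rcases hA' with ⟨A, hA, hA'⟩ | hA'
  · simp only [List.mem_cons, List.not_mem_nil, or_false] at hA'
    rcases hA' with rfl | rfl <;> simp [hR A hA]
  · rw [mem_force] at hA'
    obtain ⟨k, _, rfl | rfl⟩ := hA'
    · simp [frow]
    · simp [grow]

end Pool.Agent.Lib.MP_71902e_lc
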