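import Pool.Agent.Lib.MP_71902e_lc.Transfer
import Pool.Agent.Lib.CookLevin.Raw

/-!
The recognition problem is in NP: the certificate is the matrix of a linear order.
-/

namespace Pool.Agent.Lib.MP_71902e_lc

open Pool.Agent.CookLevin Pool.Agent.PolyTime

/-- Bit number `k` of `w`. -/
def bitAt (w : List Bool) (k : ℕ) : Bool := decide ((true, k) ∈ w.zipIdx)

theorem bitAt_iff {w : List Bool} {k : ℕ} : bitAt w k = true ↔ w.getD k false = true := by
  rw [bitAt, decide_eq_true_eq, List.mk_mem_zipIdx_iff_getElem?, List.getD_eq_getElem?_getD]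
  cases h : w[k]? with
  | none => simp
  | some b => simp

/-- Is vertex `i` in hyperedge `k`? -/
def he (x : List Bool) (n k i : ℕ) : Bool := bitAt x (n + 1 + (k * n + i))

/-- Is `i` before `j`? -/
def ltb (u : List Bool) (n i j : ℕ) : Bool := bitAt u (i * n + j)

/-- `x` has the form of the word of a hypergraph with `n` vertices and `m` hyperedges. -/
def shape (x : List Bool) (n m : ℕ) : Bool :=
  decide (n + 1 + m * n = x.length) && (((List.range n).all fun i => bitAt x i) && !bitAt x n)

/-- Conditions on three vertices. -/
def order3 (u : List Bool) (n i j k : ℕ) : Bool := !(ltb u n i j && ltb u n j k) || ltb u n i k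

/-- Conditions on two vertices. -/
def order2 (u : List Bool) (n i j : ℕ) : Bool :=
  (decide (i = j) || (ltb u n i j || ltb u n j i)) && (List.range n).all fun k => order3 u n i j k

/-- `u` is the matrix of a strict linear order. -/
def order (u : List Bool) (n : ℕ) : Bool :=
  (List.range n).all fun i => !ltb u n i i && (List.range n).all fun j => order2 u n i j

/-- There is an alternating sequence of length `s` after `prev`. -/
def altB (x u : List Bool) (n : ℕ) : ℕ → ℕ → ℕ → ℕ → Bool
  | 0, _, _, _ => true
  | s + 1, k, l, prev => (List.range n).any fun i => ((he x n k i && !he x n l i) &&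
      (decide (prev = n) || ltb u n prev i)) && altB x u n s l k i

/-- All conditions. -/
def check (t : ℕ) (x u : List Bool) (n m : ℕ) : Bool :=
  shape x n m && (order u n && (List.range m).all fun k => (List.range m).all fun l =>
    !altB x u n t k l n)

/-- The verifier. -/
def verify (t : ℕ) (q : List Bool × List Bool) : Bool :=
  (List.range (q.1.length + 1)).any fun n => (List.range (q.1.length + 1)).any fun m =>
    check t q.1 q.2 n m

section ptime
variable {α : Type} [Enc α] {w x u : α → List Bool} {n m i j k l : α → ℕ}

theorem ptime_bitAt (hw : PTime w) (hk : PTime k) : PTime (fun a => bitAt (w a) (k a)) := by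
  have h1 : PTime (fun a => (true, k a)) := (PTime.const true).pair hk
  exact (PTime.mem h1 hw.zipIdx).of_eq fun _ => decide_eq_decide.2 Iff.rfl

theorem ptime_he (hx : PTime x) (hn : PTime n) (hk : PTime k) (hi : PTime i) :
    PTime (fun a => he (x a) (n a) (k a) (i a)) :=
  ptime_bitAt hx ((hn.add (PTime.const 1)).add ((hk.mul hn).add hi))

theorem ptime_ltb (hu : PTime u) (hn : PTime n) (hi : PTime i) (hj : PTime j) :
    PTime (fun a => ltb (u a) (n a) (i a) (j a)) :=
  ptime_bitAt hu ((hi.mul hn).add hj)

theorem ptime_shape (hx : PTime x) (hn : PTime n) (hm : PTime m) :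
    PTime (fun a => shape (x a) (n a) (m a)) := by
  unfold shape
  refine (PTime.eq ((hn.add (PTime.const 1)).add (hm.mul hn)) hx.length).and
    (PTime.and ?_ (ptime_bitAt hx hn).not)
  exact PTime.all (g := fun a i => bitAt (x a) i) hn.range (ptime_bitAt (hx.comp PTime.fst) PTime.snd)

theorem ptime_order3 (hu : PTime u) (hn : PTime n) (hi : PTime i) (hj : PTime j) (hk : PTime k) :
    PTime (fun a => order3 (u a) (n a) (i a) (j a) (k a)) := by
  unfold order3
  exact (((ptime_ltb hu hn hi hj).and (ptime_ltb hu hn hj hk)).not).or (ptime_ltb hu hn hi hk)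

theorem ptime_order2 (hu : PTime u) (hn : PTime n) (hi : PTime i) (hj : PTime j) :
    PTime (fun a => order2 (u a) (n a) (i a) (j a)) := by
  unfold order2
  refine ((PTime.eq hi hj).or ((ptime_ltb hu hn hi hj).or (ptime_ltb hu hn hj hi))).and ?_
  refine PTime.all (g := fun a k => order3 (u a) (n a) (i a) (j a) k) hn.range ?_
  exact ptime_order3 (hu.comp PTime.fst) (hn.comp PTime.fst)
    (hi.comp PTime.fst) (hj.comp PTime.fst) PTime.snd

theorem ptime_order (hu : PTime u) (hn : PTime n) : PTime (fun a => order (u a) (n a)) := by
  unfold order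
  refine PTime.all (g := fun a i => !ltb (u a) (n a) i i &&
    (List.range (n a)).all fun j => order2 (u a) (n a) i j) hn.range ?_
  refine (ptime_ltb (hu.comp PTime.fst) (hn.comp PTime.fst) PTime.snd PTime.snd).not.and ?_
  refine PTime.all (g := fun (p : α × ℕ) j => order2 (u p.1) (n p.1) p.2 j)
    ((hn.comp PTime.fst).range) ?_
  exact ptime_order2 (hu.comp (PTime.fst.comp PTime.fst)) (hn.comp (PTime.fst.comp PTime.fst))
    (PTime.snd.comp PTime.fst) PTime.snd

theorem ptime_altB (s : ℕ) : ∀ {α : Type} [Enc α] {x u : α → List Bool} {n k l p : α → ℕ},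
    PTime x → PTime u → PTime n → PTime k → PTime l → PTime p →
    PTime (fun a => altB (x a) (u a) (n a) s (k a) (l a) (p a)) := by
  induction s with
  | zero =>
    intro α _ x u n k l p _ _ _ _ _ _
    exact PTime.const true
  | succ s ih =>
    intro α _ x u n k l p hx hu hn hk hl hp
    refine PTime.any (g := fun a i => ((he (x a) (n a) (k a) i && !he (x a) (n a) (l a) i) &&
      (decide (p a = n a) || ltb (u a) (n a) (p a) i)) && altB (x a) (u a) (n a) s (l a) (k a) i)
      hn.range ?_
    have hx' := hx.comp (PTime.fst (α := α) (β := ℕ))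
    have hu' := hu.comp (PTime.fst (α := α) (β := ℕ))
    have hn' := hn.comp (PTime.fst (α := α) (β := ℕ))
    have hk' := hk.comp (PTime.fst (α := α) (β := ℕ))
    have hl' := hl.comp (PTime.fst (α := α) (β := ℕ))
    have hp' := hp.comp (PTime.fst (α := α) (β := ℕ))
    exact (((ptime_he hx' hn' hk' PTime.snd).and (ptime_he hx' hn' hl' PTime.snd).not).and
      ((PTime.eq hp' hn').or (ptime_ltb hu' hn' hp' PTime.snd))).and
      (ih hx' hu' hn' hl' hk' PTime.snd)

theorem ptime_check (t : ℕ) (hx : PTime x) (hu : PTime u) (hn : PTime n) (hm : PTime m) :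
    PTime (fun a => check t (x a) (u a) (n a) (m a)) := by
  unfold check
  refine (ptime_shape hx hn hm).and ((ptime_order hu hn).and ?_)
  refine PTime.all (g := fun a k => (List.range (m a)).all fun l =>
    !altB (x a) (u a) (n a) t k l (n a)) hm.range ?_
  refine PTime.all (g := fun (p : α × ℕ) l => !altB (x p.1) (u p.1) (n p.1) t p.2 l (n p.1))
    ((hm.comp PTime.fst).range) ?_
  exact (ptime_altB t (hx.comp (PTime.fst.comp PTime.fst)) (hu.comp (PTime.fst.comp PTime.fst))
    (hn.comp (PTime.fst.comp PTime.fst)) (PTime.snd.comp PTime.fst) PTime.snd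
    (hn.comp (PTime.fst.comp PTime.fst))).not

theorem ptime_verify (t : ℕ) : PTime (verify t) := by
  unfold verify
  refine PTime.any (g := fun (q : List Bool × List Bool) n => (List.range (q.1.length + 1)).any
    fun m => check t q.1 q.2 n m) (PTime.fst.length.succ).range ?_
  refine PTime.any (g := fun (p : (List Bool × List Bool) × ℕ) m => check t p.1.1 p.1.2 p.2 m)
    ((PTime.fst.comp PTime.fst).length.succ).range ?_
  exact ptime_check t (PTime.fst.comp (PTime.fst.comp PTime.fst))
    (PTime.snd.comp (PTime.fst.comp PTime.fst)) (PTime.snd.comp PTime.fst) PTime.snd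

end ptime

/-! ### Correctness -/

theorem flatten_getD {n : ℕ} : ∀ {R : List (List Bool)}, (∀ A ∈ R, A.length = n) →
    ∀ k i, i < n → R.flatten.getD (k * n + i) false = (R.getD k []).getD i false := by
  intro R
  induction R with
  | nil => intro _ k i _; simp
  | cons A R ih =>
    intro hR k i hi
    have hA := hR A List.mem_cons_self
    cases k with
    | zero =>
      rw [List.flatten_cons, Nat.zero_mul, Nat.zero_add, List.getD_append _ _ _ _ (by omega)]
      simp
    | succ k =>
      have e : (k + 1) * n + i - A.length = k * n + i := by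
        rw [hA, Nat.add_mul, Nat.one_mul]; omega
      have e' : A.length ≤ (k + 1) * n + i := by
        rw [hA, Nat.add_mul, Nat.one_mul]; omega
      rw [List.flatten_cons, List.getD_append_right _ _ _ _ e', e,
        ih (fun B hB => hR B (List.mem_cons_of_mem _ hB)) k i hi]
      simp

theorem exists_chunks {n : ℕ} : ∀ (m : ℕ) (w : List Bool), w.length = m * n →
    ∃ R : List (List Bool), R.length = m ∧ (∀ A ∈ R, A.length = n) ∧ R.flatten = w := by
  intro m
  induction m with
  | zero =>
    intro w hw
    rw [Nat.zero_mul] at hw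
    exact ⟨[], rfl, by simp, (List.length_eq_zero_iff.1 hw).symm⟩
  | succ m ih =>
    intro w hw
    rw [Nat.add_mul, Nat.one_mul] at hw
    obtain ⟨R, h1, h2, h3⟩ := ih (w.drop n) (by rw [List.length_drop]; omega)
    refine ⟨w.take n :: R, by rw [List.length_cons, h1], ?_, ?_⟩
    · intro A hA
      rw [List.mem_cons] at hA
      rcases hA with rfl | hA
      · rw [List.length_take]; omega
      · exact h2 A hA
    · rw [List.flatten_cons, h3, List.take_append_drop]

theorem rowWord_length (n : ℕ) {R : List (List Bool)} (hR : ∀ A ∈ R, A.length = n) :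
    (rowWord n R).length = n + 1 + R.length * n := by
  unfold rowWord
  have : R.flatten.length = R.length * n := by
    rw [List.length_flatten, List.sum_eq_card_nsmul _ n (by
      intro x hx
      rw [List.mem_map] at hx
      obtain ⟨A, hA, rfl⟩ := hx
      exact hR A hA)]
    simp
  rw [List.length_append, List.length_cons, List.length_replicate, this]
  omega

theorem he_rowWord {n : ℕ} {R : List (List Bool)} (hR : ∀ A ∈ R, A.length = n) {k i : ℕ}
    (hi : i < n) : he (rowWord n R) n k i = true ↔ mem (R.getD k []) i := by
  unfold he mem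
  rw [bitAt_iff]
  unfold rowWord
  rw [List.getD_append_right _ _ _ _ (by rw [List.length_replicate]; omega),
    List.length_replicate]
  have e : n + 1 + (k * n + i) - n = (k * n + i) + 1 := by omega
  rw [e, List.getD_cons_succ, flatten_getD hR k i hi]

theorem shape_rowWord {n : ℕ} {R : List (List Bool)} (hR : ∀ A ∈ R, A.length = n) :
    shape (rowWord n R) n R.length = true := by
  unfold shape
  simp only [Bool.and_eq_true, decide_eq_true_eq, List.all_eq_true, List.mem_range,
    Bool.not_eq_true']
  refine ⟨(rowWord_length n hR).symm, fun i hi => ?_, ?_⟩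
  · rw [bitAt_iff]
    unfold rowWord
    rw [List.getD_append _ _ _ _ (by rw [List.length_replicate]; exact hi)]
    rw [List.getD_eq_getElem?_getD, List.getElem?_replicate, if_pos hi]
    rfl
  · by_contra hcon
    have : bitAt (rowWord n R) n = true := by simpa using hcon
    rw [bitAt_iff] at this
    unfold rowWord at this
    rw [List.getD_append_right _ _ _ _ (by rw [List.length_replicate]),
      List.length_replicate, Nat.sub_self] at this
    simp at this

theorem rowWord_of_shape {x : List Bool} {n m : ℕ} (h : shape x n m = true) :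
    ∃ R : List (List Bool), R.length = m ∧ (∀ A ∈ R, A.length = n) ∧ x = rowWord n R := by
  unfold shape at h
  simp only [Bool.and_eq_true, decide_eq_true_eq, List.all_eq_true, List.mem_range,
    Bool.not_eq_true'] at h
  obtain ⟨h1, h2, h3⟩ := h
  obtain ⟨R, g1, g2, g3⟩ := exists_chunks (n := n) m (x.drop (n + 1))
    (by rw [List.length_drop]; omega)
  refine ⟨R, g1, g2, ?_⟩
  unfold rowWord
  rw [g3]
  have e1 : x = x.take n ++ x.drop n := (List.take_append_drop n x).symm
  have e2 : x.take n = List.replicate n true := by
    rw [List.eq_replicate_iff]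
    refine ⟨by rw [List.length_take]; omega, fun b hb => ?_⟩
    obtain ⟨i, hi, rfl⟩ := List.mem_iff_getElem.1 hb
    rw [List.length_take] at hi
    have := h2 i (by omega)
    rw [bitAt_iff, List.getD_eq_getElem?_getD, List.getElem?_eq_getElem (by omega)] at this
    rw [List.getElem_take]
    simpa using this
  have e3 : x.drop n = false :: x.drop (n + 1) := by
    rw [List.drop_eq_getElem_cons (by omega)]
    congr 1
    by_contra hcon
    have : bitAt x n = true := by
      rw [bitAt_iff, List.getD_eq_getElem?_getD, List.getElem?_eq_getElem (by omega)]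
      simpa using hcon
    rw [this] at h3
    exact absurd h3 (by simp)
  rw [← e2, ← e3]
  exact e1

/-- Lists alternating between two sets. -/
def altS {V : Type} (A B : Set V) : List V → Prop
  | [] => True
  | x :: xs => (x ∈ A ∧ x ∉ B) ∧ altS B A xs

theorem altS_iff {V : Type} {A B : Set V} {xs : List V} : altS A B xs ↔
    ∀ i (h : i < xs.length), (i % 2 = 0 → xs[i] ∈ A \ B) ∧ (i % 2 = 1 → xs[i] ∈ B \ A) := by
  induction xs generalizing A B with
  | nil => simp [altS]
  | cons x xs ih =>
    rw [altS, ih]
    constructor
    · rintro ⟨h1, h2⟩ i hi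
      cases i with
      | zero => exact ⟨fun _ => h1, fun h => by omega⟩
      | succ i =>
        have := h2 i (by simpa using hi)
        simp only [List.getElem_cons_succ]
        exact ⟨fun h => this.2 (by omega), fun h => this.1 (by omega)⟩
    · intro h
      refine ⟨(h 0 (by simp)).1 rfl, fun i hi => ?_⟩
      have := h (i + 1) (by simpa using hi)
      simp only [List.getElem_cons_succ] at this
      exact ⟨fun h' => this.2 (by omega), fun h' => this.1 (by omega)⟩

theorem formsSequence_iff {V : Type} {lt : V → V → Prop} {t : ℕ} {A B : Set V} :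
    FormsSequence lt t A B ↔ ∃ xs : List V, xs.length = t ∧ xs.Pairwise lt ∧ altS A B xs := by
  constructor
  · rintro ⟨x, h1, h2⟩
    refine ⟨List.ofFn x, by simp, ?_, ?_⟩
    · rw [List.pairwise_ofFn]
      exact fun i j hij => h1 i j hij
    · rw [altS_iff]
      intro i hi
      rw [List.length_ofFn] at hi
      have := h2 ⟨i, hi⟩
      simpa only [List.getElem_ofFn] using this
  · rintro ⟨xs, rfl, h2, h3⟩
    rw [altS_iff] at h3
    exact ⟨fun i => xs[i], fun i j hij => List.pairwise_iff_getElem.1 h2 i j i.2 j.2 hij,
      fun i => h3 i i.2⟩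

theorem altB_iff {n : ℕ} {x u : List Bool} {E : List (Set (Fin n))}
    (hx : ∀ k (hk : k < E.length) (i : Fin n), he x n k i = true ↔ i ∈ E[k])
    (htr : ∀ a b c : Fin n, ltb u n a b = true → ltb u n b c = true → ltb u n a c = true)
    (s : ℕ) : ∀ (k l : ℕ) (hk : k < E.length) (hl : l < E.length) (p : ℕ), p ≤ n →
      (altB x u n s k l p = true ↔ ∃ xs : List (Fin n), xs.length = s ∧
        xs.Pairwise (fun (a b : Fin n) => ltb u n a b = true) ∧ altS E[k] E[l] xs ∧
        (p = n ∨ ∀ y ∈ xs, ltb u n p y = true)) := by
  induction s with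
  | zero =>
    intro k l hk hl p hp
    constructor
    · intro _
      exact ⟨[], rfl, List.Pairwise.nil, trivial, Or.inr (by simp)⟩
    · intro _; rfl
  | succ s ih =>
    intro k l hk hl p hp
    rw [altB, List.any_eq_true]
    constructor
    · rintro ⟨i, hi, h⟩
      rw [List.mem_range] at hi
      simp only [Bool.and_eq_true, Bool.or_eq_true, decide_eq_true_eq, Bool.not_eq_true'] at h
      obtain ⟨⟨⟨h1, h2⟩, h3⟩, h4⟩ := h
      rw [ih l k hl hk i hi.le] at h4
      obtain ⟨xs, g1, g2, g3, g4⟩ := h4
      have g4' : ∀ y ∈ xs, ltb u n i y = true := by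
        rcases g4 with g4 | g4
        · omega
        · exact g4
      refine ⟨⟨i, hi⟩ :: xs, by rw [List.length_cons, g1], List.pairwise_cons.2 ⟨g4', g2⟩,
        ⟨⟨(hx k hk ⟨i, hi⟩).1 h1, fun hm => ?_⟩, g3⟩, ?_⟩
      · rw [(hx l hl ⟨i, hi⟩).2 hm] at h2
        exact absurd h2 (by simp)
      · rcases h3 with h3 | h3
        · exact Or.inl h3
        · by_cases hpn : p = n
          · exact Or.inl hpn
          · right
            intro y hy
            rw [List.mem_cons] at hy
            rcases hy with rfl | hy
            · exact h3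
            · exact htr ⟨p, by omega⟩ ⟨i, hi⟩ y h3 (g4' y hy)
    · rintro ⟨xs, g1, g2, g3, g4⟩
      cases xs with
      | nil => simp at g1
      | cons i xs =>
        rw [List.pairwise_cons] at g2
        refine ⟨i, List.mem_range.2 i.2, ?_⟩
        simp only [Bool.and_eq_true, Bool.or_eq_true, decide_eq_true_eq, Bool.not_eq_true']
        refine ⟨⟨⟨(hx k hk i).2 g3.1.1, ?_⟩, ?_⟩, ?_⟩
        · by_contra hcon
          exact g3.1.2 ((hx l hl i).1 (by simpa using hcon))
        · rcases g4 with g4 | g4
          · exact Or.inl g4
          · exact Or.inr (g4 i List.mem_cons_self)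
        · rw [ih l k hl hk i i.2.le]
          exact ⟨xs, by simpa using g1, g2.2, g3.2, Or.inr g2.1⟩

theorem order_iff {u : List Bool} {n : ℕ} : order u n = true ↔
    IsStrictTotalOrder (Fin n) (fun a b => ltb u n a b = true) := by
  unfold order order2 order3
  simp only [List.all_eq_true, List.mem_range, Bool.and_eq_true, Bool.or_eq_true,
    decide_eq_true_eq, Bool.not_eq_true']
  constructor
  · intro h
    exact
    { trichotomous := by
        intro a b h1 h2
        rcases ((h a a.2).2 b b.2).1 with h3 | h3 | h3
        · exact Fin.ext h3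
        · exact absurd h3 h1
        · exact absurd h3 h2
      irrefl := by
        intro a h1
        rw [(h a a.2).1] at h1
        exact absurd h1 (by simp)
      trans := by
        intro a b c h1 h2
        rcases ((h a a.2).2 b b.2).2 c c.2 with h3 | h3
        · rw [h1, h2] at h3
          exact absurd h3 (by simp)
        · exact h3 }
  · intro h i hi
    refine ⟨?_, fun j hj => ⟨?_, fun k hk => ?_⟩⟩
    · have := h.irrefl ⟨i, hi⟩
      simpa using this
    · rcases @trichotomous_of _ (fun a b : Fin n => ltb u n a b = true) h.toTrichotomous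
        ⟨i, hi⟩ ⟨j, hj⟩ with h1 | h1 | h1
      · exact Or.inr (Or.inl h1)
      · exact Or.inl (congrArg Fin.val h1)
      · exact Or.inr (Or.inr h1)
    · by_cases h1 : ltb u n i j = true
      · by_cases h2 : ltb u n j k = true
        · exact Or.inr (h.trans ⟨i, hi⟩ ⟨j, hj⟩ ⟨k, hk⟩ h1 h2)
        · left; simp [h2]
      · left; simp [h1]

/-- Recognising `(AB)^{t/2}`-free hypergraphs is in NP. -/
theorem inNP (t : ℕ) : InNP (alternationFreeHypergraphs t) := by
  classical
  refine ⟨Polynomial.X ^ 2, verify t, polyTimeDecidable_of_ptime (ptime_verify t), fun x => ?_⟩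
  simp only [Polynomial.eval_X, Polynomial.eval_pow]
  have hhe : ∀ (n : ℕ) (E : List (Set (Fin n))) (k : ℕ) (hk : k < E.length) (i : Fin n),
      he (rowWord n (E.map cv)) n k i = true ↔ i ∈ E[k] := by
    intro n E k hk i
    rw [he_rowWord (by
      intro A hA
      rw [List.mem_map] at hA
      obtain ⟨S, _, rfl⟩ := hA
      exact length_cv S) i.2]
    rw [List.getD_eq_getElem?_getD, List.getElem?_map, List.getElem?_eq_getElem hk]
    simp only [Option.map_some, Option.getD_some, mem_cv]
    exact ⟨fun ⟨_, h⟩ => h, fun h => ⟨i.2, h⟩⟩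
  constructor
  · rintro ⟨n, E, rfl, lt, hlt, hE⟩
    rw [hypergraphWord_eq]
    have hR : ∀ A ∈ E.map cv, A.length = n := by
      intro A hA
      rw [List.mem_map] at hA
      obtain ⟨S, _, rfl⟩ := hA
      exact length_cv S
    have hlen := rowWord_length n hR
    rw [List.length_map] at hlen
    set x := rowWord n (E.map cv) with hxdef
    have hnx : n ≤ x.length := by rw [hlen]; omega
    have hsq : n * n ≤ x.length ^ 2 := by rw [sq]; exact Nat.mul_le_mul hnx hnx
    let M : List Bool := List.ofFn fun k : Fin (n * n) => decide (lt k.divNat k.modNat)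
    let u : List Bool := M ++ List.replicate (x.length ^ 2 - n * n) false
    have hM : M.length = n * n := by simp [M]
    have hu : ∀ a b : Fin n, ltb u n a b = true ↔ lt a b := by
      intro a b
      have hn : 0 < n := lt_of_le_of_lt (Nat.zero_le _) b.2
      have hlt' : a.val * n + b.val < n * n := by
        have h1 : a.val + 1 ≤ n := a.2
        have h2 := Nat.mul_le_mul_right n h1
        rw [Nat.add_one_mul] at h2
        have := b.2
        omega
      unfold ltb
      rw [bitAt_iff, List.getD_append _ _ _ _ (by rw [hM]; exact hlt'),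
        List.getD_eq_getElem?_getD, List.getElem?_eq_getElem (by rw [hM]; exact hlt')]
      simp only [M, List.getElem_ofFn, Option.getD_some, decide_eq_true_eq]
      have e1 : (Fin.divNat (⟨a.val * n + b.val, hlt'⟩ : Fin (n * n))) = a := by
        apply Fin.ext
        simp only [Fin.divNat]
        rw [Nat.add_comm, Nat.add_mul_div_right _ _ hn, Nat.div_eq_of_lt b.2, Nat.zero_add]
      have e2 : (Fin.modNat (⟨a.val * n + b.val, hlt'⟩ : Fin (n * n))) = b := by
        apply Fin.ext
        simp only [Fin.modNat]
        rw [Nat.add_comm, Nat.add_mul_mod_self_right, Nat.mod_eq_of_lt b.2]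
      rw [e1, e2]
    have heq : (fun a b : Fin n => ltb u n a b = true) = lt := by
      funext a b
      exact propext (hu a b)
    have hord : IsStrictTotalOrder (Fin n) (fun a b => ltb u n a b = true) := by
      rw [heq]; exact hlt
    refine ⟨u, ?_, ?_⟩
    · simp only [u, List.length_append, hM, List.length_replicate]
      omega
    · unfold verify
      rw [List.any_eq_true]
      refine ⟨n, List.mem_range.2 (show n < x.length + 1 by omega), ?_⟩
      by_cases hn : n = 0
      · -- no vertices
        subst hn
        rw [List.any_eq_true]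
        refine ⟨0, List.mem_range.2 (show 0 < x.length + 1 by omega), ?_⟩
        unfold check
        simp only [Bool.and_eq_true]
        refine ⟨?_, order_iff.2 hord, by simp⟩
        unfold shape
        simp only [Bool.and_eq_true, decide_eq_true_eq]
        have h1 := shape_rowWord hR
        unfold shape at h1
        simp only [Bool.and_eq_true, decide_eq_true_eq] at h1
        exact ⟨by rw [hlen]; simp, h1.2⟩
      · rw [List.any_eq_true]
        have hEx : E.length ≤ x.length := by
          rw [hlen]
          have : E.length * 1 ≤ E.length * n := Nat.mul_le_mul_left _ (by omega)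
          omega
        refine ⟨E.length, List.mem_range.2 (show E.length < x.length + 1 by omega), ?_⟩
        unfold check
        simp only [Bool.and_eq_true, List.all_eq_true, List.mem_range]
        refine ⟨?_, order_iff.2 hord, fun k hk l hl => ?_⟩
        · have := shape_rowWord hR
          rwa [List.length_map] at this
        · rw [Bool.not_eq_true', ← Bool.not_eq_true]
          intro halt
          have halt' : altB x u n t k l n = true := halt
          rw [altB_iff (E := E) (hhe n E) (fun a b c => hord.trans a b c) t k l hk hl n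
            (le_refl n)] at halt'
          obtain ⟨xs, g1, g2, g3, _⟩ := halt'
          rw [heq] at g2
          exact hE _ (List.getElem_mem hk) _ (List.getElem_mem hl)
            (formsSequence_iff.2 ⟨xs, g1, g2, g3⟩)
  · rintro ⟨u, _, hv⟩
    unfold verify at hv
    rw [List.any_eq_true] at hv
    obtain ⟨n, _, hv⟩ := hv
    rw [List.any_eq_true] at hv
    obtain ⟨m, _, hv⟩ := hv
    unfold check at hv
    simp only [Bool.and_eq_true, List.all_eq_true, List.mem_range] at hv
    obtain ⟨hs, ho, ha⟩ := hv
    obtain ⟨R, r1, r2, r3⟩ := rowWord_of_shape hs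
    obtain ⟨E, rfl⟩ := exists_sets r2
    rw [List.length_map] at r1
    have hx : x = rowWord n (E.map cv) := r3
    have hord := order_iff.1 ho
    refine ⟨n, E, by rw [hypergraphWord_eq]; exact hx, _, hord, fun A hA B hB hseq => ?_⟩
    obtain ⟨k, hk, rfl⟩ := List.mem_iff_getElem.1 hA
    obtain ⟨l, hl, rfl⟩ := List.mem_iff_getElem.1 hB
    have h1 := ha k (by omega) l (by omega)
    rw [Bool.not_eq_true', ← Bool.not_eq_true] at h1
    apply h1
    have hx' : ∀ k (hk : k < E.length) (i : Fin n), he x n k i = true ↔ i ∈ E[k] := by
      rw [hx]; exact hhe n E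
    show altB x u n t k l n = true
    rw [altB_iff (E := E) hx' (fun a b c => hord.trans a b c) t k l hk hl n (le_refl n)]
    obtain ⟨xs, g1, g2, g3⟩ := formsSequence_iff.1 hseq
    exact ⟨xs, g1, g2, g3, Or.inl rfl⟩

end Pool.Agent.Lib.MP_71902e_lc
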