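import Pool.Agent.Lib.MP_71902e_lc.Alt

/-!
From incidence rows to hypergraphs on `Fin n` and words.
-/

namespace Pool.Agent.Lib.MP_71902e_lc

theorem altL_iff {A B : List Bool} {xs : List ℕ} : altL A B xs ↔
    ∀ i (h : i < xs.length), (i % 2 = 0 → mem A xs[i] ∧ ¬ mem B xs[i]) ∧
      (i % 2 = 1 → mem B xs[i] ∧ ¬ mem A xs[i]) := by
  induction xs generalizing A B with
  | nil => simp [altL]
  | cons x xs ih =>
    rw [altL, ih]
    constructor
    · rintro ⟨h1, h2⟩ i hi
      cases i with
      | zero => exact ⟨fun _ => h1, fun h => by omega⟩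
      | succ i =>
        have := h2 i (by simpa using hi)
        simp only [List.getElem_cons_succ]
        exact ⟨fun h => this.2 (by omega), fun h => this.1 (by omega)⟩
    · intro h
      refine ⟨(h 0 (by simp)).1 rfl, fun i hi => ?_⟩
      have := h (i + 1) (by simpa using hi)
      simp only [List.getElem_cons_succ] at this
      exact ⟨fun h' => this.2 (by omega), fun h' => this.1 (by omega)⟩

open Classical in
/-- The characteristic vector. -/
noncomputable def cv {n : ℕ} (A : Set (Fin n)) : List Bool := List.ofFn fun v => decide (v ∈ A)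

theorem mem_cv {n : ℕ} {A : Set (Fin n)} {i : ℕ} : mem (cv A) i ↔ ∃ h : i < n, (⟨i, h⟩ : Fin n) ∈ A := by
  classical
  unfold mem cv
  rw [List.getD_eq_getElem?_getD]
  by_cases h : i < n
  · rw [List.getElem?_eq_getElem (by simpa using h)]
    simp [h]
  · rw [List.getElem?_eq_none (by simpa using h)]
    simp [h]

theorem length_cv {n : ℕ} (A : Set (Fin n)) : (cv A).length = n := by
  unfold cv
  rw [List.length_ofFn]

theorem free_of_alternationFree {t n : ℕ} {E : List (Set (Fin n))} (h : AlternationFree t E) :
    Free t n (E.map cv) := by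
  classical
  obtain ⟨lt, hlt, hE⟩ := h
  let rk : Fin n → ℕ := fun v => (Finset.univ.filter fun u => lt u v).card
  have hmono : ∀ a b, lt a b → rk a < rk b := by
    intro a b hab
    refine Finset.card_lt_card ⟨?_, ?_⟩
    · intro u hu
      simp only [Finset.mem_filter, Finset.mem_univ, true_and] at hu ⊢
      exact _root_.trans hu hab
    · intro hsub
      have : a ∈ Finset.univ.filter fun u => lt u b := by simpa using hab
      have h2 := hsub this
      simp only [Finset.mem_filter, Finset.mem_univ, true_and] at h2
      exact irrefl a h2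
  have hconv : ∀ a b, rk a < rk b → lt a b := by
    intro a b hab
    rcases trichotomous_of lt a b with h | h | h
    · exact h
    · rw [h] at hab; omega
    · have := hmono b a h; omega
  refine ⟨fun i => if h : i < n then rk ⟨i, h⟩ else 0, ?_, ?_⟩
  · intro i hi j hj he
    simp only [dif_pos hi, dif_pos hj] at he
    rcases trichotomous_of lt (⟨i, hi⟩ : Fin n) ⟨j, hj⟩ with h | h | h
    · have := hmono _ _ h; omega
    · exact congrArg Fin.val h
    · have := hmono _ _ h; omega
  · intro A' hA' B' hB' halt
    rw [List.mem_map] at hA' hB'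
    obtain ⟨A, hA, rfl⟩ := hA'
    obtain ⟨B, hB, rfl⟩ := hB'
    obtain ⟨xs, h1, h2, h3, h4⟩ := halt
    subst h1
    rw [altL_iff] at h4
    refine hE A hA B hB ⟨fun i => ⟨xs[i], h2 _ (List.getElem_mem i.2)⟩, ?_, ?_⟩
    · intro i j hij
      apply hconv
      have := List.pairwise_iff_getElem.1 h3 i j i.2 j.2 hij
      simp only [dif_pos (h2 _ (List.getElem_mem i.2)), dif_pos (h2 _ (List.getElem_mem j.2))]
        at this
      exact this
    · intro i
      have := h4 i i.2
      simp only [mem_cv, not_exists] at this
      constructor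
      · intro h
        obtain ⟨⟨_, g1⟩, g2⟩ := this.1 h
        exact ⟨g1, g2 _⟩
      · intro h
        obtain ⟨⟨_, g1⟩, g2⟩ := this.2 h
        exact ⟨g1, g2 _⟩

theorem alternationFree_of_free {t n : ℕ} {E : List (Set (Fin n))} (h : Free t n (E.map cv)) :
    AlternationFree t E := by
  obtain ⟨pos, hinj, hfree⟩ := h
  refine ⟨fun a b => pos a < pos b, ?_, ?_⟩
  · exact {
      irrefl := fun a => lt_irrefl _
      trans := fun a b c => lt_trans
      trichotomous := fun a b h1 h2 => Fin.ext (hinj a a.2 b b.2 (by omega)) }
  · rintro A hA B hB ⟨x, h1, h2⟩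
    refine hfree _ (List.mem_map_of_mem hA) _ (List.mem_map_of_mem hB)
      ⟨List.ofFn fun i => (x i).val, by simp, ?_, ?_, ?_⟩
    · intro y hy
      rw [List.mem_ofFn] at hy
      obtain ⟨i, rfl⟩ := hy
      exact (x i).2
    · rw [List.pairwise_ofFn]
      intro i j hij
      exact h1 i j hij
    · rw [altL_iff]
      intro i hi
      rw [List.length_ofFn] at hi
      have := h2 ⟨i, hi⟩
      simp only [List.getElem_ofFn, mem_cv, not_exists]
      constructor
      · intro h
        obtain ⟨g1, g2⟩ := this.1 h
        exact ⟨⟨(x ⟨i, hi⟩).2, g1⟩, fun _ => g2⟩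
      · intro h
        obtain ⟨g1, g2⟩ := this.2 h
        exact ⟨⟨(x ⟨i, hi⟩).2, g1⟩, fun _ => g2⟩

/-! ### Words -/

/-- The word of incidence rows. -/
def rowWord (n : ℕ) (R : List (List Bool)) : List Bool :=
  List.replicate n true ++ false :: R.flatten

theorem hypergraphWord_eq (n : ℕ) (E : List (Set (Fin n))) :
    hypergraphWord n E = rowWord n (E.map cv) := by
  unfold hypergraphWord rowWord cv
  rw [List.flatMap_def]

theorem rowWord_inj {n n' : ℕ} {R R' : List (List Bool)} (h : rowWord n R = rowWord n' R') :
    n = n' ∧ R.flatten = R'.flatten := by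
  unfold rowWord at h
  induction n generalizing n' with
  | zero =>
    cases n' with
    | zero => simpa using h
    | succ n' => simp [List.replicate_succ] at h
  | succ n ih =>
    cases n' with
    | zero => simp [List.replicate_succ] at h
    | succ n' =>
      rw [List.replicate_succ, List.replicate_succ, List.cons_append, List.cons_append,
        List.cons.injEq] at h
      obtain ⟨h1, h2⟩ := ih h.2
      exact ⟨by rw [h1], h2⟩

theorem flatten_inj {n : ℕ} (hn : 0 < n) : ∀ {R R' : List (List Bool)},
    (∀ A ∈ R, A.length = n) → (∀ A ∈ R', A.length = n) → R.flatten = R'.flatten → R = R' := by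
  intro R
  induction R with
  | nil =>
    intro R' _ h' h
    cases R' with
    | nil => rfl
    | cons A R' =>
      have := h' A List.mem_cons_self
      rw [List.flatten_nil, List.flatten_cons] at h
      have h2 := congrArg List.length h
      rw [List.length_nil, List.length_append] at h2
      omega
  | cons A R ih =>
    intro R' hR hR' h
    cases R' with
    | nil =>
      have := hR A List.mem_cons_self
      rw [List.flatten_nil, List.flatten_cons] at h
      have h2 := congrArg List.length h
      rw [List.length_nil, List.length_append] at h2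
      omega
    | cons A' R' =>
      rw [List.flatten_cons, List.flatten_cons] at h
      obtain ⟨h1, h2⟩ := List.append_inj h
        ((hR A List.mem_cons_self).trans (hR' A' List.mem_cons_self).symm)
      rw [h1, ih (fun B hB => hR B (List.mem_cons_of_mem _ hB))
        (fun B hB => hR' B (List.mem_cons_of_mem _ hB)) h2]

theorem cv_surj {n : ℕ} {A : List Bool} (hA : A.length = n) : ∃ S : Set (Fin n), cv S = A := by
  subst hA
  refine ⟨{v | A.get v = true}, ?_⟩
  unfold cv
  apply List.ext_getElem
  · simp
  · intro i h1 h2
    simp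

theorem exists_sets {n : ℕ} {R : List (List Bool)} (hR : ∀ A ∈ R, A.length = n) :
    ∃ E : List (Set (Fin n)), E.map cv = R := by
  induction R with
  | nil => exact ⟨[], rfl⟩
  | cons A R ih =>
    obtain ⟨E, hE⟩ := ih (fun B hB => hR B (List.mem_cons_of_mem _ hB))
    obtain ⟨S, hS⟩ := cv_surj (hR A List.mem_cons_self)
    exact ⟨S :: E, by rw [List.map_cons, hE, hS]⟩

theorem rowWord_mem_iff {t n : ℕ} (ht : 1 ≤ t) {R : List (List Bool)}
    (hR : ∀ A ∈ R, A.length = n) : rowWord n R ∈ alternationFreeHypergraphs t ↔ Free t n R := by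
  constructor
  · rintro ⟨n', E, h1, h2⟩
    rw [hypergraphWord_eq] at h1
    obtain ⟨rfl, h3⟩ := rowWord_inj h1
    by_cases hn : n = 0
    · subst hn
      refine ⟨fun i => i, fun i hi => by omega, fun A _ B _ halt => ?_⟩
      obtain ⟨xs, g1, g2, _, _⟩ := halt
      cases xs with
      | nil => simp at g1; omega
      | cons x xs =>
        have := g2 x List.mem_cons_self
        omega
    · have : R = E.map cv := flatten_inj (by omega) hR (by
        intro A hA
        rw [List.mem_map] at hA
        obtain ⟨S, _, rfl⟩ := hA
        exact length_cv S) h3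
      rw [this]
      exact free_of_alternationFree h2
  · intro h
    obtain ⟨E, rfl⟩ := exists_sets hR
    exact ⟨n, E, (hypergraphWord_eq n E).symm, alternationFree_of_free h⟩

end Pool.Agent.Lib.MP_71902e_lc
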