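import Pool.Agent.Lib.MP_71902e_lc.Five
import Pool.Agent.Lib.MP_71902e_lc.Base2
import Pool.Agent.Lib.MP_71902e_lc.Transfer
import Pool.Agent.Lib.MP_5b98da_lc.Word

/-!
NP-hardness of the recognition problem.
-/

namespace Pool.Agent.Lib.MP_71902e_lc

open Pool.Agent.CookLevin Pool.Agent.PolyTime Pool.Agent.Lib.MP_5b98da_lc

section base
variable {α σ : Type} [DecidableEq α] [Enc α] [EncInj α] [Enc σ]

theorem ptime_ptsL {f : σ → List (α × (α × α))} (hf : PTime f) :
    PTime (fun s => ptsL (f s)) := by
  unfold ptsL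
  have h1 : PTime (fun s => (vars (f s)).map gv) :=
    PTime.map (g := fun (_ : σ) (x : α) => gv x) (ptime_vars hf)
      ((PTime.const 2).pair ((PTime.const 0).pair (PTime.snd.cons (PTime.const []))))
  have h2 : PTime (fun s => (List.range (f s).length).flatMap
      (fun j => [(gb j : Gd α), gu j])) := by
    refine PTime.flatMap (g := fun (_ : σ) (j : ℕ) => [(gb j : Gd α), gu j])
      (PTime.range (PTime.length hf)) ?_
    exact ((PTime.const 3).pair (PTime.snd.pair (PTime.const []))).cons
      (((PTime.const 4).pair (PTime.snd.pair (PTime.const []))).cons (PTime.const []))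
  exact (PTime.const gr).cons ((PTime.const gM).cons (h1.append h2))

omit [DecidableEq α] [EncInj α] in
theorem ptime_consL {f : σ → List (α × (α × α))} (hf : PTime f) :
    PTime (fun s => consL (f s)) := by
  unfold consL
  refine PTime.flatMap (g := fun (_ : σ) (g : Cls α) => cons g.1 g.2) (PTime.zipIdx hf) ?_
  unfold cons
  have hT : PTime (fun p : σ × Cls α => p.2.1) := PTime.fst.comp PTime.snd
  have hj : PTime (fun p : σ × Cls α => p.2.2) := PTime.snd.comp PTime.snd
  have gv' : ∀ {g : σ × Cls α → α}, PTime g → PTime (fun p => gv (g p)) := fun hg =>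
    (PTime.const 2).pair ((PTime.const 0).pair (hg.cons (PTime.const [])))
  have x1 := gv' (PTime.fst.comp hT)
  have x2 := gv' (PTime.fst.comp (PTime.snd.comp hT))
  have x3 := gv' (PTime.snd.comp (PTime.snd.comp hT))
  have b : PTime (fun p : σ × Cls α => (gb p.2.2 : Gd α)) :=
    (PTime.const 3).pair (hj.pair (PTime.const []))
  have u : PTime (fun p : σ × Cls α => (gu p.2.2 : Gd α)) :=
    (PTime.const 4).pair (hj.pair (PTime.const []))
  have r : PTime (fun _ : σ × Cls α => (gr : Gd α)) := PTime.const _
  have M : PTime (fun _ : σ × Cls α => (gM : Gd α)) := PTime.const _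
  exact ((x2.pair b).pair (r.pair M)).cons (((x1.pair r).pair (b.pair u)).cons
    (((x1.pair u).pair (b.pair r)).cons (((u.pair r).pair (x3.pair M)).cons
    (((u.pair M).pair (x3.pair r)).cons (PTime.const [])))))

theorem ptime_vtsL {f : σ → List (α × (α × α))} (hf : PTime f) :
    PTime (fun s => vtsL (f s)) := by
  unfold vtsL
  refine PTime.flatMap (g := fun s (i : ℕ) => (ptsL (f s)).map fun g => (g, i))
    (PTime.range (PTime.length (ptime_consL hf))) ?_
  refine PTime.map (g := fun (p : σ × ℕ) (g : Gd α) => (g, p.2))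
    ((ptime_ptsL hf).comp PTime.fst) ?_
  exact PTime.snd.pair (PTime.snd.comp PTime.fst)

theorem ptime_hb {g : σ → Gd α} {w : σ → Gd α × ℕ} (hg : PTime g) (hw : PTime w) :
    PTime (fun s => hb (g s) (w s)) :=
  PTime.eq (PTime.fst.comp hw) hg

theorem ptime_hs {i : σ → ℕ} {P : σ → Gd α × Gd α} {w : σ → Gd α × ℕ} (hi : PTime i)
    (hP : PTime P) (hw : PTime w) : PTime (fun s => hs (i s) (P s) (w s)) := by
  unfold hs
  exact PTime.or (PTime.mem (PTime.snd.comp hw) (PTime.range hi))
    (PTime.and (PTime.eq (PTime.snd.comp hw) hi)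
      (PTime.or (PTime.eq (PTime.fst.comp hw) (PTime.fst.comp hP))
        (PTime.eq (PTime.fst.comp hw) (PTime.snd.comp hP))))

theorem ptime_rows {f : σ → List (α × (α × α))} (hf : PTime f) :
    PTime (fun s => rows (f s)) := by
  have h1 : PTime (fun s => (ptsL (f s)).flatMap fun g =>
      [(vtsL (f s)).map (hb g), (vtsL (f s)).map fun w => !hb g w]) := by
    refine PTime.flatMap (g := fun s (g : Gd α) =>
      [(vtsL (f s)).map (hb g), (vtsL (f s)).map fun w => !hb g w]) (ptime_ptsL hf) ?_
    have hv : PTime (fun p : σ × Gd α => vtsL (f p.1)) := (ptime_vtsL hf).comp PTime.fst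
    have e1 : PTime (fun p : σ × Gd α => (vtsL (f p.1)).map (hb p.2)) :=
      PTime.map (g := fun (p : σ × Gd α) (w : Gd α × ℕ) => hb p.2 w) hv
        (ptime_hb (PTime.snd.comp PTime.fst) PTime.snd)
    have e2 : PTime (fun p : σ × Gd α => (vtsL (f p.1)).map (fun w => !hb p.2 w)) :=
      PTime.map (g := fun (p : σ × Gd α) (w : Gd α × ℕ) => !hb p.2 w) hv
        (PTime.not (ptime_hb (PTime.snd.comp PTime.fst) PTime.snd))
    exact e1.cons (e2.cons (PTime.const []))
  have h2 : PTime (fun s => (consL (f s)).zipIdx.flatMap fun c =>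
      [(vtsL (f s)).map (hs c.2 c.1.1), (vtsL (f s)).map (hs c.2 c.1.2)]) := by
    refine PTime.flatMap (g := fun s (c : ((Gd α × Gd α) × (Gd α × Gd α)) × ℕ) =>
      [(vtsL (f s)).map (hs c.2 c.1.1), (vtsL (f s)).map (hs c.2 c.1.2)])
      (PTime.zipIdx (ptime_consL hf)) ?_
    have hv : PTime (fun p : σ × (((Gd α × Gd α) × (Gd α × Gd α)) × ℕ) => vtsL (f p.1)) :=
      (ptime_vtsL hf).comp PTime.fst
    have e1 : PTime (fun p : σ × (((Gd α × Gd α) × (Gd α × Gd α)) × ℕ) =>
        (vtsL (f p.1)).map (hs p.2.2 p.2.1.1)) :=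
      PTime.map (g := fun (p : σ × (((Gd α × Gd α) × (Gd α × Gd α)) × ℕ)) (w : Gd α × ℕ) =>
        hs p.2.2 p.2.1.1 w) hv
        (ptime_hs (PTime.snd.comp (PTime.snd.comp PTime.fst))
          (PTime.fst.comp (PTime.fst.comp (PTime.snd.comp PTime.fst))) PTime.snd)
    have e2 : PTime (fun p : σ × (((Gd α × Gd α) × (Gd α × Gd α)) × ℕ) =>
        (vtsL (f p.1)).map (hs p.2.2 p.2.1.2)) :=
      PTime.map (g := fun (p : σ × (((Gd α × Gd α) × (Gd α × Gd α)) × ℕ)) (w : Gd α × ℕ) =>
        hs p.2.2 p.2.1.2 w) hv
        (ptime_hs (PTime.snd.comp (PTime.snd.comp PTime.fst))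
          (PTime.snd.comp (PTime.fst.comp (PTime.snd.comp PTime.fst))) PTime.snd)
    exact e1.cons (e2.cons (PTime.const []))
  refine (h1.append h2).of_eq fun s => ?_
  unfold rows preds
  rw [List.map_append, List.map_flatMap, List.map_flatMap]
  rfl

end base

section steps
variable {σ : Type} [Enc σ]

theorem ptime_rangeConst {n : σ → ℕ} (hn : PTime n) (b : Bool) :
    PTime (fun s => (List.range (n s)).map (fun _ => b)) :=
  PTime.map (g := fun (_ : σ) (_ : ℕ) => b) (PTime.range hn) (PTime.const b)

theorem ptime_step1 {n : σ → ℕ} {R : σ → List (List Bool)} (hn : PTime n) (hR : PTime R) :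
    PTime (fun s => step1 (n s) (R s)) := by
  unfold step1 force
  have h1 : PTime (fun s => (R s).flatMap fun A =>
      [A ++ [false, false, false, false, false, false],
       A ++ [true, false, false, false, false, false]]) :=
    PTime.flatMap (g := fun (_ : σ) (A : List Bool) =>
      [A ++ [false, false, false, false, false, false],
       A ++ [true, false, false, false, false, false]]) hR
      ((PTime.snd.append (PTime.const _)).cons
        ((PTime.snd.append (PTime.const _)).cons (PTime.const [])))
  have h2 : PTime (fun s => (List.range 5).flatMap fun k =>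
      [(List.range (n s)).map (fun _ => false) ++
        true :: (List.range 5).map (fun j => decide (j = k)),
       (List.range (n s)).map (fun _ => true) ++
        false :: (List.range 5).map (fun j => !decide (j = k))]) := by
    refine PTime.flatMapConst (List.range 5) fun k _ => ?_
    exact ((ptime_rangeConst hn false).append (PTime.const _)).cons
      (((ptime_rangeConst hn true).append (PTime.const _)).cons (PTime.const []))
  exact h1.append h2

theorem ptime_step2 (t : ℕ) {R : σ → List (List Bool)} (hR : PTime R) :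
    PTime (fun s => step2 t (R s)) := by
  unfold step2
  refine PTime.flatMap (g := fun (_ : σ) (A : List Bool) =>
    (units (t + 2)).map fun z => A ++ z) hR ?_
  exact PTime.mapConst (units (t + 2)) (fun z _ => PTime.snd.append (PTime.const z))

theorem ptime_rowWord {n : σ → ℕ} {R : σ → List (List Bool)} (hn : PTime n) (hR : PTime R) :
    PTime (fun s => rowWord (n s) (R s)) := by
  have h1 := ptime_rangeConst hn true
  have h2 : PTime (fun s => (R s).flatMap fun A => A) :=
    PTime.flatMap (g := fun (_ : σ) (A : List Bool) => A) hR PTime.snd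
  refine (h1.append ((PTime.const false).cons h2)).of_eq fun s => ?_
  unfold rowWord
  congr 1
  · apply List.ext_getElem <;> simp
  · rw [List.flatMap_id']

end steps

section main
variable {α : Type} [DecidableEq α] [Enc α] [EncInj α]

/-- A polynomial-time reduction from monotone NAE-3SAT to the row version of the problem. -/
def Reducible (α : Type) [Enc α] (t : ℕ) : Prop :=
  ∃ (n : List (α × (α × α)) → ℕ) (R : List (α × (α × α)) → List (List Bool)),
    PTime n ∧ PTime R ∧ ∀ I, (∀ A ∈ R I, A.length = n I) ∧ (NAESat I ↔ Free t (n I) (R I))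

theorem reducible_four : Reducible α 4 :=
  ⟨fun I => (vtsL I).length, rows, PTime.length (ptime_vtsL PTime.id), ptime_rows PTime.id,
    fun I => ⟨length_rows I, base_iff I⟩⟩

theorem reducible_five : Reducible α 5 := by
  obtain ⟨n, R, hn, hR, h⟩ := reducible_four (α := α)
  exact ⟨fun I => n I + 6, fun I => step1 (n I) (R I), hn.add (PTime.const 6),
    ptime_step1 hn hR, fun I => ⟨length_step1 (h I).1,
      (h I).2.trans ⟨step1_complete (h I).1, step1_sound (h I).1⟩⟩⟩

omit [DecidableEq α] [EncInj α] in
theorem Reducible.add_two {t : ℕ} (ht : Reducible α t) : Reducible α (t + 2) := by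
  obtain ⟨n, R, hn, hR, h⟩ := ht
  exact ⟨fun I => n I + (t + 2), fun I => step2 t (R I), hn.add (PTime.const (t + 2)),
    ptime_step2 t hR, fun I => ⟨length_step2 (h I).1,
      (h I).2.trans ⟨step2_complete (h I).1, step2_sound (h I).1⟩⟩⟩

theorem reducible {t : ℕ} (ht : 4 ≤ t) : Reducible α t := by
  have key : ∀ k, Reducible α (4 + 2 * k) ∧ Reducible α (5 + 2 * k) := by
    intro k
    induction k with
    | zero => exact ⟨reducible_four, reducible_five⟩
    | succ k ih => exact ⟨ih.1.add_two, ih.2.add_two⟩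
  obtain ⟨k, rfl | rfl⟩ : ∃ k, t = 4 + 2 * k ∨ t = 5 + 2 * k := ⟨(t - 4) / 2, by omega⟩
  · exact (key k).1
  · exact (key k).2

end main

/-- Recognising `(AB)^{t/2}`-free hypergraphs is NP-hard for every `t ≥ 4`. -/
theorem npHard {t : ℕ} (ht : 4 ≤ t) : NPHard (alternationFreeHypergraphs t) := by
  intro L hL
  obtain ⟨F, hF, hF'⟩ := cook_levin hL
  classical
  obtain ⟨n, R, hn, hR, h⟩ := reducible (α := List (Lit VN)) ht
  have hI := ptime_nae3.comp hF
  refine ⟨fun x => rowWord (n (nae3 (F x))) (R (nae3 (F x))), polyTimeComputable_of_ptime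
    (ptime_rowWord (hn.comp hI) (hR.comp hI)), fun x => ?_⟩
  rw [hF', nae3_iff, (h _).2, rowWord_mem_iff (by omega) (h _).1]

end Pool.Agent.Lib.MP_71902e_lc
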